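import Pool.Agent.Helper25.TY.SRelx
import Pool.Agent.Helper33.TY.PosChk

/-!
MP_8ee768_co, project TH-Y', stage S: the relative form as a kernel check.

`rx a b r k m e`: `r` is the code of the root link, `e` the code of the entry. `k = 0`: the mask
`m` has five points and contains three quads of the entry. `k = 1`: the mask `m` has four points,
which contain three triples of the pair link, or (if `b < a + 2`) two of them and are a quad of
the entry.
-/

set_option autoImplicit false
set_option exponentiation.threshold 600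

namespace Pool.Agent.Helper25.TY

open Finset
open Pool.Agent.Helper89.CV (OddCover ofMask)
open Pool.Agent.Helper97.CV Pool.Agent.Helper79.CV
open Pool.Agent.Helper82.TY (below Best)
open Pool.Agent.Helper4.CV Pool.Agent.Helper33.TY

/-! ## constants -/

/-- for every point `u < 11` the quads avoiding it -/
def av4 : List (ℕ × ℕ) := [(0, 0x3fbf7deed3f7deed3ef769eed3b4d23f7deed3ef769eed3b4d23ef769eed3b4d23dda769a4769a46910),
  (1, 0x3f7efbddabefbddabdeed5ddab6aa93efbddabdeed5ddab6aa93deed5ddab6aa93bb56d5526d5525488),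
  (2, 0x3efdf7bb67df7bb67bddb3bb66d964bdf7bb67bddb3bb66d964bbddb3bb66d964b76cdb2c95b2c93244),
  (3, 0x3dfbef771fbef771f7bb8f771dc71c7bef771f7bb8f771dc71c77bb8f771dc71c6ee3b8e38b8e388e22),
  (4, 0x3bf7def0ff7def0fef787ef0fc3f03f7def0fef787ef0fc3f03ef787ef0fc3f03de1f87e0787e0781e1),
  (5, 0x37efbe0ffefbe0ffdf07fe0ffc00ffefbe0ffdf07fe0ffc00ffdf07fe0ffc00ffc1ff801ff801ff801f),
  (6, 0x2fdf81fffdf81fffc0fffe0003ffffdf81fffc0fffe0003ffffc0fffe0003ffffc0007ffff800007fff),
  (7, 0x1fc07ffffc07ffffc00001ffffffffc07ffffc00001ffffffffc00001ffffffffc000000007ffffffff),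
  (8, 0x3ffffffc0000003fffffffffffffc0000003fffffffffffffc00000000000003fffffffffffffffff),
  (9, 0x3ffffffffffffffffffffc000000000000000000003fffffffffffffffffffffffffffffff),
  (10, 0x3ffffffffffffffffffffffffffffffffffffffffffffffffffff)]

/-- for every point `u < 11` the triples avoiding it -/
def av3 : List (ℕ × ℕ) := [(0, 0x1fefefdf7bb4fefdf7bb4fdf7bb4fbdda7bb4ed348),
  (1, 0x1fdfdfbef76afdfbef76afbef76af7bb5776adaaa4),
  (2, 0x1fbfbf7deed9fbf7deed9f7deed9ef76ceed9b6592),
  (3, 0x1f7f7efbddc7f7efbddc7efbddc7deee3ddc771c71),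
  (4, 0x1efefdf7bc3fefdf7bc3fdf7bc3fbde1fbc3f0fc0f),
  (5, 0x1dfdfbef83ffdfbef83ffbef83ff7c1ff83ff003ff),
  (6, 0x1bfbf7e07fffbf7e07fff7e07fff03fff8000fffff),
  (7, 0x17f7f01fffff7f01fffff01fffff000007ffffffff),
  (8, 0xff00fffffff00fffffff0000000ffffffffffffff),
  (9, 0xfffffffff000000000fffffffffffffffffffff),
  (10, 0xffffffffffffffffffffffffffffff)]

/-- the masks of four points -/
def w4 : ℕ := 0x1000000000000000100000001000101160000000000000001000000010001011600000001000101160001011601161668000000000000000100000001000101160000000100010116000101160116166800000001000101160001011601161668000101160116166801161668166868800000000000000001000000010001011600000001000101160001011601161668000000010001011600010116011616680001011601161668011616681668688000000001000101160001011601161668000101160116166801161668166868800001011601161668011616681668688001161668166868801668688068808000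

/-- the masks of five points -/
def w5 : ℕ := 0x10000000100010116000000010001011600010116011616680000000100010116000101160116166800010116011616680116166816686880000000010001011600010116011616680001011601161668011616681668688000010116011616680116166816686880011616681668688016686880688080000000000100010116000101160116166800010116011616680116166816686880000101160116166801161668166868800116166816686880166868806880800000010116011616680116166816686880011616681668688016686880688080000116166816686880166868806880800016686880688080006880800080000000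


theorem av4_ok : av4.length = 11 ∧ ∀ u, ∀ h : u < av4.length, av4[u].1 = u ∧
    ∀ i, ∀ h' : i < (L 11 4).length, av4[u].2.testBit i = !(L 11 4)[i].testBit u := by
  decide +kernel

theorem av3_ok : av3.length = 11 ∧ ∀ u, ∀ h : u < av3.length, av3[u].1 = u ∧
    ∀ i, ∀ h' : i < (L 11 3).length, av3[u].2.testBit i = !(L 11 3)[i].testBit u := by
  decide +kernel

theorem w5_ok : ∀ m < 2048, w5.testBit m = true → (ofMask m).card = 5 := by
  decide +kernel

theorem w4_ok : ∀ m < 2048, w4.testBit m = true → (ofMask m).card = 4 := by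
  decide +kernel

/-! ## the members inside a mask -/

/-- one point -/
def avS (m X : ℕ) (p : ℕ × ℕ) : ℕ :=
  cond (Nat.beq (Nat.land (Nat.shiftRight m p.1) 1) 1) X (Nat.land X p.2)

/-- the members inside the mask `m` -/
def inV (t : List (ℕ × ℕ)) (m X : ℕ) : ℕ :=
  List.rec (motive := fun _ => ℕ) X (fun p _ ih => avS m ih p) t

theorem beq_land_one (m u : ℕ) :
    Nat.beq (Nat.land (Nat.shiftRight m u) 1) 1 = m.testBit u := by
  have e : Nat.land (Nat.shiftRight m u) 1 = (m >>> u) &&& 1 := rfl
  rw [e, Nat.and_one_is_mod, Nat.testBit_eq_decide_div_mod_eq, Nat.shiftRight_eq_div_pow]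
  rcases Nat.mod_two_eq_zero_or_one (m / 2 ^ u) with h | h <;> rw [h] <;> rfl

theorem testBit_inV {t : List (ℕ × ℕ)} {m X i : ℕ} (h : (inV t m X).testBit i = true) :
    X.testBit i = true ∧ ∀ p ∈ t, m.testBit p.1 = false → p.2.testBit i = true := by
  induction t with
  | nil => exact ⟨h, fun p hp => absurd hp List.not_mem_nil⟩
  | cons p t ih =>
    have e : inV t.tail m X = inV t.tail m X := rfl
    have h' : (cond (Nat.beq (Nat.land (Nat.shiftRight m p.1) 1) 1) (inV t m X)
      (Nat.land (inV t m X) p.2)).testBit i = true := h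
    rw [beq_land_one] at h'
    cases hm : m.testBit p.1
    · rw [hm, cond_false] at h'
      have h2 : ((inV t m X) &&& p.2).testBit i = true := h'
      rw [Nat.testBit_and, Bool.and_eq_true] at h2
      obtain ⟨h3, h4⟩ := ih h2.1
      refine ⟨h3, fun q hq hmq => ?_⟩
      rcases List.mem_cons.1 hq with rfl | hq
      · exact h2.2
      · exact h4 q hq hmq
    · rw [hm, cond_true] at h'
      obtain ⟨h3, h4⟩ := ih h'
      refine ⟨h3, fun q hq hmq => ?_⟩
      rcases List.mem_cons.1 hq with rfl | hq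
      · rw [hm] at hmq
        exact absurd hmq (by decide)
      · exact h4 q hq hmq

/-- the set of a position inside the mask -/
theorem sub_of_inV {k : ℕ} {t : List (ℕ × ℕ)} (ht : t.length = 11 ∧ ∀ u, ∀ h : u < t.length,
    t[u].1 = u ∧ ∀ i, ∀ h' : i < (L 11 k).length, t[u].2.testBit i = !(L 11 k)[i].testBit u)
    {m X i : ℕ} (hi : i < (L 11 k).length) (h : (inV t m X).testBit i = true) :
    X.testBit i = true ∧ ofMask (L 11 k)[i] ⊆ ofMask m ∧ (ofMask (L 11 k)[i]).card = k := by
  obtain ⟨h1, h2⟩ := testBit_inV h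
  have h3 := (mem_L (n := 11) (k := k) (by norm_num)).1 (List.getElem_mem hi)
  refine ⟨h1, ?_, h3.2⟩
  intro a ha
  rw [mem_ofMask] at ha ⊢
  have ha11 : a.val < 11 := by
    by_contra hc
    rw [Nat.testBit_lt_two_pow (lt_of_lt_of_le h3.1 (Nat.pow_le_pow_right (by norm_num)
      (by omega)))] at ha
    exact Bool.false_ne_true ha
  by_contra hc
  rw [Bool.not_eq_true] at hc
  have hu : a.val < t.length := by omega
  obtain ⟨h4, h5⟩ := ht.2 a.val hu
  have h6 := h2 _ (List.getElem_mem hu) (by rw [h4]; exact hc)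
  rw [h5 i hi, ha] at h6
  exact absurd h6 (by decide)

/-! ## at least two or three bits -/

/-- without the lowest bit -/
def cl (x : ℕ) : ℕ := Nat.land x (Nat.sub x 1)

theorem cl_bit {x : ℕ} (hx : x ≠ 0) : ∃ i, x.testBit i = true ∧ (cl x).testBit i = false := by
  by_contra hc
  push Not at hc
  have h1 : x &&& (x - 1) = x := by
    refine Nat.eq_of_testBit_eq fun i => ?_
    rw [Nat.testBit_and]
    cases h : x.testBit i
    · rfl
    · have h2 := hc i h
      have h3 : ((x &&& (x - 1))).testBit i ≠ false := h2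
      rw [Bool.ne_false_iff, Nat.testBit_and, h] at h3
      exact h3
  have h2 : x &&& (x - 1) ≤ x - 1 := Nat.and_le_right
  omega

theorem cl_sub {x i : ℕ} (h : (cl x).testBit i = true) : x.testBit i = true := by
  have h1 : (x &&& (x - 1)).testBit i = true := h
  rw [Nat.testBit_and, Bool.and_eq_true] at h1
  exact h1.1

theorem two_bits {x : ℕ} (h : cl x ≠ 0) : ∃ i j, i ≠ j ∧ x.testBit i = true ∧
    x.testBit j = true := by
  have hx : x ≠ 0 := by
    rintro rfl
    exact h (by decide)
  obtain ⟨i, hi, hi'⟩ := cl_bit hx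
  obtain ⟨j, hj, -⟩ := cl_bit h
  refine ⟨i, j, ?_, hi, cl_sub hj⟩
  rintro rfl
  rw [hi'] at hj
  exact Bool.false_ne_true hj

theorem three_bits {x : ℕ} (h : cl (cl x) ≠ 0) : ∃ i j k, i ≠ j ∧ i ≠ k ∧ j ≠ k ∧
    x.testBit i = true ∧ x.testBit j = true ∧ x.testBit k = true := by
  have hx : x ≠ 0 := by
    rintro rfl
    exact h (by decide)
  obtain ⟨i, hi, hi'⟩ := cl_bit hx
  have hy : cl x ≠ 0 := by
    intro h1
    rw [h1] at h
    exact h (by decide)
  obtain ⟨j, k, hjk, hj, hk⟩ := two_bits h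
  refine ⟨i, j, k, ?_, ?_, hjk, hi, cl_sub hj, cl_sub hk⟩
  · rintro rfl
    rw [hi'] at hj
    exact Bool.false_ne_true hj
  · rintro rfl
    rw [hi'] at hk
    exact Bool.false_ne_true hk

theorem ofMask_getElem_inj {k i j : ℕ} (hi : i < (L 11 k).length) (hj : j < (L 11 k).length)
    (h : ofMask (L 11 k)[i] = ofMask (L 11 k)[j]) : i = j := by
  have h1 := lt_of_mem_L (List.getElem_mem hi)
  have h2 := lt_of_mem_L (List.getElem_mem hj)
  norm_num at h1 h2
  have h3 := ofMask_injOn (by omega) (by omega) h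
  exact (nodup_L 11 k).getElem_inj_iff.1 h3

theorem card_three {S : Finset (Finset (Fin 13))} {k i j l : ℕ} (hi : i < (L 11 k).length)
    (hj : j < (L 11 k).length) (hl : l < (L 11 k).length) (hij : i ≠ j) (hil : i ≠ l)
    (hjl : j ≠ l) (h1 : ofMask (L 11 k)[i] ∈ S) (h2 : ofMask (L 11 k)[j] ∈ S)
    (h3 : ofMask (L 11 k)[l] ∈ S) : 3 ≤ S.card := by
  have h4 : ({ofMask (L 11 k)[i], ofMask (L 11 k)[j], ofMask (L 11 k)[l]} :
      Finset (Finset (Fin 13))) ⊆ S := by
    intro s hs
    rw [mem_insert, mem_insert, mem_singleton] at hs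
    rcases hs with rfl | rfl | rfl
    · exact h1
    · exact h2
    · exact h3
  refine le_trans (le_of_eq ?_) (card_le_card h4)
  rw [card_insert_of_notMem, card_insert_of_notMem, card_singleton]
  · rw [mem_singleton]
    exact fun h => hjl (ofMask_getElem_inj hj hl h)
  · rw [mem_insert, mem_singleton]
    rintro (h | h)
    · exact hij (ofMask_getElem_inj hi hj h)
    · exact hil (ofMask_getElem_inj hi hl h)

theorem card_two {S : Finset (Finset (Fin 13))} {k i j : ℕ} (hi : i < (L 11 k).length)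
    (hj : j < (L 11 k).length) (hij : i ≠ j) (h1 : ofMask (L 11 k)[i] ∈ S)
    (h2 : ofMask (L 11 k)[j] ∈ S) : 2 ≤ S.card := by
  have h4 : ({ofMask (L 11 k)[i], ofMask (L 11 k)[j]} : Finset (Finset (Fin 13))) ⊆ S := by
    intro s hs
    rw [mem_insert, mem_singleton] at hs
    rcases hs with rfl | rfl
    · exact h1
    · exact h2
  refine le_trans (le_of_eq ?_) (card_le_card h4)
  rw [card_insert_of_notMem, card_singleton]
  rw [mem_singleton]
  exact fun h => hij (ofMask_getElem_inj hi hj h)

/-! ## the check -/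

/-- five points with three quads of the entry -/
def rxLow (m e : ℕ) : Bool :=
  Nat.blt m 2048 && (Nat.beq (Nat.land (Nat.shiftRight w5 m) 1) 1 && (Nat.blt e (2 ^ 330) &&
    Nat.blt 0 (cl (cl (inV av4 m e)))))

/-- four points and `12` -/
def rxHigh (a b r m e : ℕ) : Bool :=
  Nat.blt m 2048 && (Nat.beq (Nat.land (Nat.shiftRight w4 m) 1) 1 && (Nat.blt e (2 ^ 330) && (Nat.blt r (2 ^ 495) &&
    (cond (Nat.blt b (Nat.add a 2))
      (Nat.blt 0 (cl (cl (inV av3 m (Nat.shiftRight r 330)))) ||
        (Nat.blt 0 (cl (inV av3 m (Nat.shiftRight r 330))) && Nat.blt 0 (inV av4 m e)))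
      (Nat.blt 0 (cl (cl (inV av3 m (Nat.shiftRight r 330)))) && Nat.beq (inV av4 m e) 0)))))

def rx (a b r k m e : ℕ) : Bool := cond (Nat.beq k 0) (rxLow m e) (rxHigh a b r m e)

theorem length_L4 : (L 11 4).length = 330 := by decide +kernel

theorem length_L3 : (L 11 3).length = 165 := by decide +kernel

theorem bit_lt {x n i : ℕ} (hx : x < 2 ^ n) (h : x.testBit i = true) : i < n := by
  by_contra hc
  rw [Nat.testBit_lt_two_pow (lt_of_lt_of_le hx (Nat.pow_le_pow_right (by norm_num)
    (by omega)))] at h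
  exact Bool.false_ne_true h

theorem inV_sub {t : List (ℕ × ℕ)} {m X i : ℕ} (h : (inV t m X).testBit i = true) :
    X.testBit i = true := (testBit_inV h).1

/-- a quad of the entry inside the mask -/
theorem quad_mem {m e i : ℕ} (he : e < 2 ^ 330) (h : (inV av4 m e).testBit i = true) :
    ∃ hi : i < (L 11 4).length, ofMask (L 11 4)[i] ⊆ ofMask m ∧
      (ofMask (L 11 4)[i]).card = 4 ∧ insert 11 (ofMask (L 11 4)[i]) ∈ cone 11 (fam 11 4 e) := by
  have hi : i < (L 11 4).length := by
    rw [length_L4]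
    exact bit_lt he (inV_sub h)
  obtain ⟨h1, h2, h3⟩ := sub_of_inV av4_ok hi h
  refine ⟨hi, h2, h3, ?_⟩
  unfold cone
  rw [mem_image]
  refine ⟨_, ?_, rfl⟩
  rw [mem_fam]
  exact ⟨i, hi, h1, rfl⟩

theorem rxLow_sound {a b r m e : ℕ} (hb : b ≤ 7) (h : rxLow m e = true) :
    PDead (fun B x y => TwoS B x y a b) r (cone 11 (fam 11 4 e)) := by
  unfold rxLow at h
  rw [beq_land_one, Bool.and_eq_true, Bool.and_eq_true, Bool.and_eq_true, Nat.blt_eq, Nat.blt_eq,
    Nat.blt_eq] at h
  obtain ⟨h1, h2, h3, h4⟩ := h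
  obtain ⟨i, j, k, hij, hik, hjk, hi, hj, hk⟩ := three_bits (Nat.pos_iff_ne_zero.1 h4)
  obtain ⟨hi1, hi2, hi3, hi4⟩ := quad_mem h3 hi
  obtain ⟨hj1, hj2, hj3, hj4⟩ := quad_mem h3 hj
  obtain ⟨hk1, hk2, hk3, hk4⟩ := quad_mem h3 hk
  refine pdead_low hb (V := ofMask m) (w5_ok m h1 h2) ?_ ?_
  · intro x hx
    rw [mem_R11]
    rw [mem_ofMask] at hx
    exact bit_lt (n := 11) (by norm_num; omega) hx
  · exact card_three hi1 hj1 hk1 hij hik hjk
      (mem_filter.2 ⟨mem_powersetCard.2 ⟨hi2, hi3⟩, hi4⟩)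
      (mem_filter.2 ⟨mem_powersetCard.2 ⟨hj2, hj3⟩, hj4⟩)
      (mem_filter.2 ⟨mem_powersetCard.2 ⟨hk2, hk3⟩, hk4⟩)

/-- a triple of the pair link inside the mask -/
theorem triple_mem {m r i : ℕ} (hr : r < 2 ^ 495)
    (h : (inV av3 m (Nat.shiftRight r 330)).testBit i = true) :
    ∃ hi : i < (L 11 3).length, ofMask (L 11 3)[i] ⊆ ofMask m ∧
      (ofMask (L 11 3)[i]).card = 3 ∧ insert 11 (ofMask (L 11 3)[i]) ∈ fam 12 4 r := by
  have hT : Nat.shiftRight r 330 < 2 ^ 165 := by
    have e : Nat.shiftRight r 330 = r >>> 330 := rfl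
    rw [e, Nat.shiftRight_eq_div_pow, Nat.div_lt_iff_lt_mul (by positivity)]
    calc r < 2 ^ 495 := hr
      _ = 2 ^ 165 * 2 ^ 330 := by norm_num
  have hi : i < (L 11 3).length := by
    rw [length_L3]
    exact bit_lt hT (inV_sub h)
  obtain ⟨h1, h2, h3⟩ := sub_of_inV av3_ok hi h
  refine ⟨hi, h2, h3, ?_⟩
  have hl := link_fam_last 11 3 r (by
    have e1 : (11 : Fin 13).val + 1 = 12 := rfl
    have e2 : Nat.choose 12 4 = 495 := by decide
    rw [e1, e2]
    exact hr)
  have e330 : (11 : Fin 13).val.choose (3 + 1) = 330 := by decide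
  rw [e330] at hl
  have h4 : ofMask (L 11 3)[i] ∈ fam 11 3 (r >>> 330) := by
    rw [mem_fam]
    exact ⟨i, hi, h1, rfl⟩
  have h5 : ofMask (L 11 3)[i] ∈ link (fam 12 4 r) 11 := by
    rw [show link (fam 12 4 r) 11 = fam 11 3 (r >>> 330) from hl]
    exact h4
  exact (mem_link.1 h5).2

theorem rxHigh_sound {a b r m e : ℕ} (hb : b ≤ 7) (h : rxHigh a b r m e = true) :
    PDead (fun B x y => TwoS B x y a b) r (cone 11 (fam 11 4 e)) := by
  unfold rxHigh at h
  rw [beq_land_one, Bool.and_eq_true, Bool.and_eq_true, Bool.and_eq_true, Bool.and_eq_true, Nat.blt_eq,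
    Nat.blt_eq, Nat.blt_eq] at h
  obtain ⟨h1, h2, h3, h4, h5⟩ := h
  have hW := w4_ok m h1 h2
  have hWR : ofMask m ⊆ R11 := by
    intro x hx
    rw [mem_R11]
    rw [mem_ofMask] at hx
    exact bit_lt (n := 11) (by norm_num; omega) hx
  -- three triples
  have c3 : Nat.blt 0 (cl (cl (inV av3 m (Nat.shiftRight r 330)))) = true →
      3 ≤ (((ofMask m).powersetCard 3).filter (fun t => insert 11 t ∈ fam 12 4 r)).card := by
    intro h6
    rw [Nat.blt_eq] at h6
    obtain ⟨i, j, k, hij, hik, hjk, hi, hj, hk⟩ := three_bits (Nat.pos_iff_ne_zero.1 h6)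
    obtain ⟨hi1, hi2, hi3, hi4⟩ := triple_mem h4 hi
    obtain ⟨hj1, hj2, hj3, hj4⟩ := triple_mem h4 hj
    obtain ⟨hk1, hk2, hk3, hk4⟩ := triple_mem h4 hk
    exact card_three hi1 hj1 hk1 hij hik hjk
      (mem_filter.2 ⟨mem_powersetCard.2 ⟨hi2, hi3⟩, hi4⟩)
      (mem_filter.2 ⟨mem_powersetCard.2 ⟨hj2, hj3⟩, hj4⟩)
      (mem_filter.2 ⟨mem_powersetCard.2 ⟨hk2, hk3⟩, hk4⟩)
  have c2 : Nat.blt 0 (cl (inV av3 m (Nat.shiftRight r 330))) = true →
      2 ≤ (((ofMask m).powersetCard 3).filter (fun t => insert 11 t ∈ fam 12 4 r)).card := by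
    intro h6
    rw [Nat.blt_eq] at h6
    obtain ⟨i, j, hij, hi, hj⟩ := two_bits (Nat.pos_iff_ne_zero.1 h6)
    obtain ⟨hi1, hi2, hi3, hi4⟩ := triple_mem h4 hi
    obtain ⟨hj1, hj2, hj3, hj4⟩ := triple_mem h4 hj
    exact card_two hi1 hj1 hij
      (mem_filter.2 ⟨mem_powersetCard.2 ⟨hi2, hi3⟩, hi4⟩)
      (mem_filter.2 ⟨mem_powersetCard.2 ⟨hj2, hj3⟩, hj4⟩)
  -- the quad
  have cq : Nat.blt 0 (inV av4 m e) = true → insert 11 (ofMask m) ∈ cone 11 (fam 11 4 e) := by
    intro h6
    rw [Nat.blt_eq] at h6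
    obtain ⟨i, hi⟩ := Nat.exists_testBit_of_ne_zero (Nat.pos_iff_ne_zero.1 h6)
    obtain ⟨hi1, hi2, hi3, hi4⟩ := quad_mem h3 hi
    have h7 : ofMask (L 11 4)[i] = ofMask m := eq_of_subset_of_card_le hi2 (by rw [hi3, hW])
    rw [h7] at hi4
    exact hi4
  have cn : Nat.beq (inV av4 m e) 0 = true → insert 11 (ofMask m) ∉ cone 11 (fam 11 4 e) := by
    intro h6 h7
    rw [Nat.beq_eq] at h6
    have hE : ∀ s ∈ fam 11 4 e, (11 : Fin 13) ∉ s := by
      intro s hs h8
      have h9 := (sub_of_mem_fam (by norm_num) hs).1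
      exact absurd (mk_lt_iff.1 h9 11 h8) (by decide)
    rw [mem_cone hE, erase_insert (fun h => absurd (mem_R11.1 (hWR h)) (by decide)),
      mem_fam] at h7
    obtain ⟨i, hi, h8, h9⟩ := h7.2
    have h10 : (inV av4 m e).testBit i = true := by
      have key : ∀ t : List (ℕ × ℕ), (∀ p ∈ t, p ∈ av4) → (inV t m e).testBit i = true := by
        intro t
        induction t with
        | nil => exact fun _ => h8
        | cons p t ih =>
          intro ht
          have h11 := ih fun q hq => ht q (List.mem_cons_of_mem _ hq)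
          show (cond (Nat.beq (Nat.land (Nat.shiftRight m p.1) 1) 1) (inV t m e)
            (Nat.land (inV t m e) p.2)).testBit i = true
          rw [beq_land_one]
          cases hm : m.testBit p.1
          · rw [cond_false]
            show ((inV t m e) &&& p.2).testBit i = true
            rw [Nat.testBit_and, h11, Bool.true_and]
            obtain ⟨u, hu, h12⟩ := List.getElem_of_mem (ht p List.mem_cons_self)
            obtain ⟨h13, h14⟩ := av4_ok.2 u hu
            rw [← h12, h14 i hi]
            rw [← h12, h13] at hm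
            have hu11 : u < 11 := by
              rw [← av4_ok.1]
              exact hu
            have h15 : (L 11 4)[i].testBit u = m.testBit u := by
              have h16 := congrArg (fun s => decide ((⟨u, by omega⟩ : Fin 13) ∈ s)) h9
              simp only [mem_ofMask] at h16
              simpa using h16
            rw [h15, hm]
            rfl
          · rw [cond_true]
            exact h11
      exact key av4 fun _ h => h
    rw [h6, Nat.zero_testBit] at h10
    exact Bool.false_ne_true h10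
  by_cases hab : Nat.blt b (Nat.add a 2) = true
  · rw [hab, cond_true, Bool.or_eq_true, Bool.and_eq_true] at h5
    rw [Nat.blt_eq] at hab
    refine pdead_high' hb hab hW hWR ?_
    rcases h5 with h5 | h5
    · have := c3 h5
      omega
    · have h6 := c2 h5.1
      rw [if_pos (cq h5.2)]
      omega
  · rw [Bool.not_eq_true] at hab
    rw [hab, cond_false, Bool.and_eq_true] at h5
    exact pdead_high hb hW hWR (cn h5.2) (c3 h5.1)

/-- **the check of the relative form** -/
theorem rx_sound {a b r : ℕ} (hb : b ≤ 7) {k m e : ℕ} (h : rx a b r k m e = true) :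
    PDead (fun B x y => TwoS B x y a b) r (cone 11 (fam 11 4 e)) := by
  unfold rx at h
  cases hk : Nat.beq k 0
  · rw [hk, cond_false] at h
    exact rxHigh_sound hb h
  · rw [hk, cond_true] at h
    exact rxLow_sound hb h

end Pool.Agent.Helper25.TY
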