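import Pool.Agent.Helper25.TY.SChunk
import Pool.Agent.Helper25.TY.Rx
import Pool.Agent.Helper58.TB.NearOK

/-!
MP_8ee768_co, project TH-Y', stage S: the pair driver from the labelled tables alone.

Both links of a pair `x`, `y` with `mm = 0` have the same pair link, one of the two near-STS after
a relabelling. So the link of `x` is an entry of the labelled table and can be moved to a root
by an automorphism of the pair link (or it is not reduced).
-/

set_option autoImplicit false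
set_option exponentiation.threshold 600

namespace Pool.Agent.Helper25.TY

open Finset
open Pool.Agent.Helper89.CV (OddCover ofMask)
open Pool.Agent.Helper97.CV
open Pool.Agent.Helper79.CV
open Pool.Agent.Helper82.TY (below Best)
open Pool.Agent.Helper67.TY
open Pool.Agent.Helper4.CV
open Pool.Agent.Helper33.TY (Inv₂ PDead Red inv_red twoS_map relChk relChk_spec)
open Pool.Agent.Helper16.TY (eF)

/-- the entries `l` are all the families with pair link `T` and `MM = b` -/
def TabE (T b : ℕ) (l : List ℕ) : Prop :=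
  ∀ D : Finset (Finset (Fin 13)), OddFam 3 (below 12) D → link D 11 = fam 11 3 T →
    2 * D.card = 114 + b → ∃ e ∈ l, D = eF T e ∧
      D.filter (fun s => (11 : Fin 13) ∉ s) = fam 11 4 e

theorem TabE.tableOK {T b : ℕ} {l : List ℕ} (h : TabE T b l) : TableOK T b (Ex b) (famS l) := by
  intro D hD hDT _ hx
  obtain ⟨e, he, -, h1⟩ := h D hD hDT hx
  exact ⟨e, he, h1⟩

theorem tabE_of {T : ℕ} (hT : T < 2 ^ 165) {c0 c2 c4 : List (ℕ × ℕ × List ℕ × List ℕ)}
    (h0 : TabP T 57 0 c0) (h2 : TabP T 58 0 c2) (h4 : TabP T 59 0 c4)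
    (h : ∀ D : Finset (Finset (Fin 13)), OddFam 3 (below 12) D → link D 11 = fam 11 3 T →
      2 * D.card ≤ 114 + 4 → ∃ e ∈ allE c0 ++ allE c2 ++ allE c4, D = eF T e) :
    TabE T 0 (allE c0) ∧ TabE T 2 (allE c2) ∧ TabE T 4 (allE c4) := by
  have key : ∀ D : Finset (Finset (Fin 13)), OddFam 3 (below 12) D → link D 11 = fam 11 3 T →
      2 * D.card ≤ 114 + 4 → ∃ e, (e ∈ allE c0 ∧ D.card = 57 ∨ e ∈ allE c2 ∧ D.card = 58 ∨
        e ∈ allE c4 ∧ D.card = 59) ∧ D = eF T e ∧
        D.filter (fun s => (11 : Fin 13) ∉ s) = fam 11 4 e := by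
    intro D hD hDT hc
    obtain ⟨e, he, rfl⟩ := h D hD hDT hc
    rw [List.mem_append, List.mem_append] at he
    rcases he with (he | he) | he
    · obtain ⟨z, hz⟩ := tab_mem hT (by norm_num) h0 e he
      exact ⟨e, Or.inl ⟨he, hz.2.2.2.1⟩, rfl, filter_eF hT hz⟩
    · obtain ⟨z, hz⟩ := tab_mem hT (by norm_num) h2 e he
      exact ⟨e, Or.inr (Or.inl ⟨he, hz.2.2.2.1⟩), rfl, filter_eF hT hz⟩
    · obtain ⟨z, hz⟩ := tab_mem hT (by norm_num) h4 e he
      exact ⟨e, Or.inr (Or.inr ⟨he, hz.2.2.2.1⟩), rfl, filter_eF hT hz⟩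
  refine ⟨?_, ?_, ?_⟩
  · intro D hD hDT hx
    obtain ⟨e, he, hf⟩ := key D hD hDT (by omega)
    rcases he with he | he | he
    · exact ⟨e, he.1, hf⟩
    · omega
    · omega
  · intro D hD hDT hx
    obtain ⟨e, he, hf⟩ := key D hD hDT (by omega)
    rcases he with he | he | he
    · omega
    · exact ⟨e, he.1, hf⟩
    · omega
  · intro D hD hDT hx
    obtain ⟨e, he, hf⟩ := key D hD hDT (by omega)
    rcases he with he | he | he
    · omega
    · omega
    · exact ⟨e, he.1, hf⟩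

/-! ## roots -/

/-- the entry is not reduced: the mask has five points with three quads, or four points which
form with `11` such a set -/
def nrChk (T m e : ℕ) : Bool :=
  Nat.blt m 2048 && (Nat.blt e (2 ^ 330) && (Nat.blt T (2 ^ 165) &&
    ((Nat.beq (Nat.land (Nat.shiftRight w5 m) 1) 1 && Nat.blt 0 (cl (cl (inV av4 m e)))) ||
    (Nat.beq (Nat.land (Nat.shiftRight w4 m) 1) 1 &&
      (Nat.blt 0 (cl (cl (inV av3 m T))) ||
        (Nat.blt 0 (cl (inV av3 m T)) && Nat.blt 0 (inV av4 m e)))))))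

theorem lt_495 {T e : ℕ} (hT : T < 2 ^ 165) (he : e < 2 ^ 330) :
    e + 2 ^ 330 * T < 2 ^ 495 := by
  have e1 : (2 : ℕ) ^ 495 = 2 ^ 330 * 2 ^ 165 := by norm_num
  rw [e1]
  calc e + 2 ^ 330 * T < 2 ^ 330 + 2 ^ 330 * T := by omega
    _ = 2 ^ 330 * (T + 1) := by ring
    _ ≤ 2 ^ 330 * 2 ^ 165 := Nat.mul_le_mul_left _ hT

/-- the quads of an entry avoiding `11` -/
theorem mem_eF_low {T e : ℕ} (hT : T < 2 ^ 165) (he : e < 2 ^ 330) {s : Finset (Fin 13)}
    (h : s ∈ fam 11 4 e) : s ∈ eF T e := by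
  have h1 : ∀ s ∈ eF T e, Sub 12 4 s := fun s hs => by
    unfold eF at hs
    exact sub_of_mem_fam (by norm_num) hs
  have h2 := fam_low11 h1
  rw [enc_eF hT he] at h2
  rw [h2] at h
  exact (mem_filter.1 h).1

/-- the quads of an entry through `11` -/
theorem mem_eF_high {T e : ℕ} (hT : T < 2 ^ 165) (he : e < 2 ^ 330) {t : Finset (Fin 13)}
    (h : t ∈ fam 11 3 T) : insert 11 t ∈ eF T e ∧ (11 : Fin 13) ∉ t := by
  have h7 := Pool.Agent.Helper33.TY.link_fam_last 11 3 (e + 2 ^ 330 * T) (by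
    have e1 : (11 : Fin 13).val + 1 = 12 := rfl
    have e2 : Nat.choose 12 4 = 495 := by decide
    rw [e1, e2]
    exact lt_495 hT he)
  have e2 : (11 : Fin 13).val.choose (3 + 1) = 330 := by decide
  rw [e2] at h7
  have e3 : (e + 2 ^ 330 * T) >>> 330 = T := by
    rw [Nat.shiftRight_eq_div_pow, Nat.add_mul_div_left _ _ (by positivity),
      Nat.div_eq_of_lt he, Nat.zero_add]
  rw [e3] at h7
  have h8 : t ∈ link (eF T e) 11 := by
    rw [show link (eF T e) 11 = fam 11 3 T from h7]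
    exact h
  exact ⟨(mem_link.1 h8).2, (mem_link.1 h8).1⟩

theorem mem_fam_of_inV {k m X i n : ℕ} {t : List (ℕ × ℕ)}
    (ht : t.length = 11 ∧ ∀ u, ∀ h : u < t.length,
    t[u].1 = u ∧ ∀ i, ∀ h' : i < (L 11 k).length, t[u].2.testBit i = !(L 11 k)[i].testBit u)
    (hn : (L 11 k).length = n) (hX : X < 2 ^ n) (h : (inV t m X).testBit i = true) :
    ∃ hi : i < (L 11 k).length, ofMask (L 11 k)[i] ⊆ ofMask m ∧
      (ofMask (L 11 k)[i]).card = k ∧ ofMask (L 11 k)[i] ∈ fam 11 k X := by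
  have hi : i < (L 11 k).length := by
    rw [hn]
    exact bit_lt hX (inV_sub h)
  obtain ⟨h1, h2, h3⟩ := sub_of_inV ht hi h
  refine ⟨hi, h2, h3, ?_⟩
  rw [mem_fam]
  exact ⟨i, hi, h1, rfl⟩

theorem nrChk_sound {T m e : ℕ} (h : nrChk T m e = true) : ¬ Red (eF T e) := by
  unfold nrChk at h
  rw [beq_land_one, beq_land_one, Bool.and_eq_true, Bool.and_eq_true, Bool.and_eq_true,
    Nat.blt_eq, Nat.blt_eq, Nat.blt_eq] at h
  obtain ⟨h1, h2, h3, h4⟩ := h
  intro hR
  rw [Bool.or_eq_true, Bool.and_eq_true, Bool.and_eq_true, Bool.or_eq_true,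
    Bool.and_eq_true] at h4
  have hWR : ofMask m ⊆ R11 := by
    intro x hx
    rw [mem_R11]
    rw [mem_ofMask] at hx
    exact bit_lt (n := 11) (by norm_num; omega) hx
  have h11 : (11 : Fin 13) ∉ ofMask m := fun h => absurd (mem_R11.1 (hWR h)) (by decide)
  rcases h4 with ⟨h5, h6⟩ | ⟨h5, h6⟩
  · rw [Nat.blt_eq] at h6
    obtain ⟨i, j, k, hij, hik, hjk, hi, hj, hk⟩ := three_bits (Nat.pos_iff_ne_zero.1 h6)
    obtain ⟨hi1, hi2, hi3, hi4⟩ := mem_fam_of_inV av4_ok length_L4 h2 hi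
    obtain ⟨hj1, hj2, hj3, hj4⟩ := mem_fam_of_inV av4_ok length_L4 h2 hj
    obtain ⟨hk1, hk2, hk3, hk4⟩ := mem_fam_of_inV av4_ok length_L4 h2 hk
    have h7 := hR (ofMask m) (w5_ok m h1 h5)
    have h8 := card_three (S := eF T e ∩ (ofMask m).powersetCard 4) hi1 hj1 hk1 hij hik hjk
      (mem_inter.2 ⟨mem_eF_low h3 h2 hi4, mem_powersetCard.2 ⟨hi2, hi3⟩⟩)
      (mem_inter.2 ⟨mem_eF_low h3 h2 hj4, mem_powersetCard.2 ⟨hj2, hj3⟩⟩)
      (mem_inter.2 ⟨mem_eF_low h3 h2 hk4, mem_powersetCard.2 ⟨hk2, hk3⟩⟩)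
    omega
  · have hW := w4_ok m h1 h5
    have hU : (insert 11 (ofMask m)).card = 5 := by
      rw [card_insert_of_notMem h11, hW]
    have h7 := hR _ hU
    -- the triples
    have key : ∀ S : Finset (Finset (Fin 13)), (∀ t ∈ S, t ∈ fam 11 3 T ∧ t ⊆ ofMask m ∧
        t.card = 3) → S.card + (if ofMask m ∈ eF T e then 1 else 0) ≤
        (eF T e ∩ (insert 11 (ofMask m)).powersetCard 4).card := by
      intro S hS
      have hA : S.image (insert 11) ⊆ (eF T e ∩ (insert 11 (ofMask m)).powersetCard 4).filter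
          (fun s => (11 : Fin 13) ∈ s) := by
        intro s hs
        obtain ⟨t, ht, rfl⟩ := mem_image.1 hs
        obtain ⟨h8, h9, h10⟩ := hS t ht
        obtain ⟨h11', h12⟩ := mem_eF_high h3 h2 h8
        rw [mem_filter, mem_inter, mem_powersetCard]
        exact ⟨⟨h11', insert_subset_insert _ h9, by rw [card_insert_of_notMem h12, h10]⟩,
          mem_insert_self _ _⟩
      have hAc : S.card ≤ ((eF T e ∩ (insert 11 (ofMask m)).powersetCard 4).filter
          (fun s => (11 : Fin 13) ∈ s)).card := by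
        rw [← card_image_of_injOn (f := insert (11 : Fin 13)) (s := S) ?_]
        · exact card_le_card hA
        · intro t ht t' ht' heq
          have h12 := (mem_eF_high h3 h2 (hS t ht).1).2
          have h13 := (mem_eF_high h3 h2 (hS t' ht').1).2
          have heq' : insert (11 : Fin 13) t = insert (11 : Fin 13) t' := heq
          have h14 : (insert (11 : Fin 13) t).erase 11 = (insert (11 : Fin 13) t').erase 11 := by
            rw [heq']
          rw [erase_insert h12, erase_insert h13] at h14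
          exact h14
      have hB : (if ofMask m ∈ eF T e then 1 else 0) ≤
          ((eF T e ∩ (insert 11 (ofMask m)).powersetCard 4).filter
          (fun s => ¬ (11 : Fin 13) ∈ s)).card := by
        split_ifs with hc
        · rw [Nat.one_le_iff_ne_zero, ← Nat.pos_iff_ne_zero, card_pos]
          refine ⟨ofMask m, ?_⟩
          rw [mem_filter, mem_inter, mem_powersetCard]
          exact ⟨⟨hc, subset_insert _ _, hW⟩, h11⟩
        · exact Nat.zero_le _
      rw [← card_filter_add_card_filter_not (s := eF T e ∩ (insert 11 (ofMask m)).powersetCard 4)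
        (fun s => (11 : Fin 13) ∈ s)]
      exact Nat.add_le_add hAc hB
    have key' := key (((ofMask m).powersetCard 3).filter (fun t => t ∈ fam 11 3 T)) (by
      intro t ht
      rw [mem_filter, mem_powersetCard] at ht
      exact ⟨ht.2, ht.1.1, ht.1.2⟩)
    rcases h6 with h6 | ⟨h6, h6'⟩
    · rw [Nat.blt_eq] at h6
      obtain ⟨i, j, k, hij, hik, hjk, hi, hj, hk⟩ := three_bits (Nat.pos_iff_ne_zero.1 h6)
      obtain ⟨hi1, hi2, hi3, hi4⟩ := mem_fam_of_inV av3_ok length_L3 h3 hi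
      obtain ⟨hj1, hj2, hj3, hj4⟩ := mem_fam_of_inV av3_ok length_L3 h3 hj
      obtain ⟨hk1, hk2, hk3, hk4⟩ := mem_fam_of_inV av3_ok length_L3 h3 hk
      have h9 := card_three (S := ((ofMask m).powersetCard 3).filter (fun t => t ∈ fam 11 3 T))
        hi1 hj1 hk1 hij hik hjk (mem_filter.2 ⟨mem_powersetCard.2 ⟨hi2, hi3⟩, hi4⟩)
        (mem_filter.2 ⟨mem_powersetCard.2 ⟨hj2, hj3⟩, hj4⟩)
        (mem_filter.2 ⟨mem_powersetCard.2 ⟨hk2, hk3⟩, hk4⟩)
      omega
    · rw [Nat.blt_eq] at h6 h6'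
      obtain ⟨i, j, hij, hi, hj⟩ := two_bits (Nat.pos_iff_ne_zero.1 h6)
      obtain ⟨hi1, hi2, hi3, hi4⟩ := mem_fam_of_inV av3_ok length_L3 h3 hi
      obtain ⟨hj1, hj2, hj3, hj4⟩ := mem_fam_of_inV av3_ok length_L3 h3 hj
      obtain ⟨l, hl⟩ := Nat.exists_testBit_of_ne_zero (Nat.pos_iff_ne_zero.1 h6')
      obtain ⟨hl1, hl2, hl3, hl4⟩ := mem_fam_of_inV av4_ok length_L4 h2 hl
      have h10 : ofMask (L 11 4)[l] = ofMask m :=
        eq_of_subset_of_card_le hl2 (by rw [hl3, hW])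
      rw [h10] at hl4
      have h9 := card_two (S := ((ofMask m).powersetCard 3).filter (fun t => t ∈ fam 11 3 T))
        hi1 hj1 hij (mem_filter.2 ⟨mem_powersetCard.2 ⟨hi2, hi3⟩, hi4⟩)
        (mem_filter.2 ⟨mem_powersetCard.2 ⟨hj2, hj3⟩, hj4⟩)
      rw [if_pos (mem_eF_low h3 h2 hl4)] at key'
      omega

/-- the check of the roots: the certificate `(k, j, m)` of an entry is `k < 99`: the automorphism
number `k` moves it to the root number `j`; `k = 99`: it is not reduced because of the mask `m` -/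
def rootChk (T : ℕ) (G : List (List ℕ)) (R : List ℕ) : List ℕ → List (ℕ × ℕ × ℕ) → Bool
  | [], _ => true
  | _ :: _, [] => false
  | e :: es, c :: cs =>
    (bif Nat.beq c.1 99 then nrChk T c.2.2 e
      else relChk (Nat.add e (Nat.mul (2 ^ 330) T)) 11 (G.getD c.1 []) (R.getD c.2.1 0) T &&
        Nat.blt c.2.1 R.length) && rootChk T G R es cs

/-- an entry of the table can be moved to a root or is not reduced -/
def RootE (T : ℕ) (R l : List ℕ) : Prop :=
  ∀ e ∈ l, Red (eF T e) → ∃ σ : Equiv.Perm (Fin 13), σ 12 = 12 ∧ σ 11 = 11 ∧ ∃ r ∈ R,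
    mapF σ (eF T e) = fam 12 4 r ∧ link (fam 12 4 r) 11 = fam 11 3 T

theorem rootChk_sound {T : ℕ} {G : List (List ℕ)} {R : List ℕ} :
    ∀ {es : List ℕ} {cs : List (ℕ × ℕ × ℕ)}, rootChk T G R es cs = true → RootE T R es
  | [], _, _ => fun e he => absurd he List.not_mem_nil
  | _ :: _, [], h => absurd h (by simp [rootChk])
  | e :: es, c :: cs, h => by
    rw [rootChk, Bool.and_eq_true] at h
    intro e' he' hR
    rcases List.mem_cons.1 he' with rfl | he'
    · have h1 := h.1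
      cases hc : Nat.beq c.1 99
      · rw [hc, cond_false, Bool.and_eq_true, Nat.blt_eq] at h1
        obtain ⟨σ, h2, h3, h4, h5⟩ := relChk_spec (by norm_num) h1.1
        refine ⟨σ, h2, h3, R.getD c.2.1 0, ?_, ?_, h5⟩
        · rw [List.getD_eq_getElem _ _ h1.2]
          exact List.getElem_mem h1.2
        · exact h4
      · rw [hc, cond_true] at h1
        exact absurd hR (nrChk_sound h1)
    · exact rootChk_sound h.2 e' he' hR

/-! ## the driver -/

/-- **the pair driver from the labelled tables** -/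
theorem twoS_driver {a b : ℕ} (hab : a ≤ b) (ha : a ≤ 2) (hb : b ≤ 4)
    {Q : Finset (Finset (Fin 13)) → Fin 13 → Fin 13 → Prop} (hQ : Inv₂ Q)
    (hQT : ∀ B x y, Q B x y → TwoS B x y a b) {lx ly R : ℕ → List ℕ}
    (hx : ∀ T, T = repA ∨ T = repB → TabE T a (lx T))
    (hy : ∀ T, T = repA ∨ T = repB → TabE T b (ly T))
    (hroot : ∀ T, T = repA ∨ T = repB → RootE T (R T) (lx T))
    (hkill : ∀ T, T = repA ∨ T = repB → ∀ r ∈ R T, ∀ e ∈ ly T,
      PDead Q r (cone 11 (fam 11 4 e)))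
    {B : Finset (Finset (Fin 13))} {x y : Fin 13} (h : Q B x y) : False := by
  have h1 := hQT _ _ _ h
  have hB := h1.best.odd
  have hm : mm B x y = 0 := h1.ind x y h1.ne (h1.hx.le.trans (by omega))
    (h1.hy.le.trans (by omega))
  obtain ⟨σ, hσx, hσy, hσ⟩ := Pool.Agent.Helper58.TB.near_cover hB h1.ne hm
  obtain ⟨T, hTT, hTlt, hT⟩ : ∃ T, (T = repA ∨ T = repB) ∧ T < 2 ^ (11).choose 3 ∧
      enc 11 3 (link (link (mapF σ B) 12) 11) = T := by
    rcases hσ with hσ | hσ
    · exact ⟨repA, Or.inl rfl, repA_lt, hσ⟩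
    · exact ⟨repB, Or.inr rfl, repB_lt, hσ⟩
  have hQ1 := hQ σ B x y h
  rw [hσx, hσy] at hQ1
  have h2 := hQT _ _ _ hQ1
  have hB1 := h2.best.odd
  have hT1 := (enc_pair hB1 hTlt).1 hT
  -- the link of 12 is an entry
  have h3 : 2 * (link (mapF σ B) 12).card = 114 + a := by
    rw [two_mul_card_link hB1 12, h2.hx]
  obtain ⟨e, he, hDe, -⟩ := hx T hTT _ (oddFam_twelve hB1) hT1 h3
  -- it is reduced
  have hred : Red (eF T e) := by
    rw [← hDe]
    intro U hU
    by_cases hxU : (12 : Fin 13) ∈ U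
    · have h4 : link (mapF σ B) 12 ∩ U.powersetCard 4 ⊆ {U.erase 12} := by
        intro s hs
        rw [mem_inter, mem_link, mem_powersetCard] at hs
        rw [mem_singleton]
        refine eq_of_subset_of_card_le ?_ ?_
        · intro c hc
          exact mem_erase.2 ⟨fun h5 => hs.1.1 (h5 ▸ hc), hs.2.1 hc⟩
        · rw [card_erase_of_mem hxU, hU, hs.2.2]
      exact (card_le_card h4).trans (by rw [card_singleton]; omega)
    · by_contra hcon
      obtain ⟨u, -, -, hu⟩ := h2.best.p_eq_three hU hxU (by omega)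
      rw [h2.hx] at hu
      by_cases h4 : u = 12
      · rw [h4, h2.hx] at hu
        omega
      · by_cases h5 : u = 11
        · rw [h5, h2.hy] at hu
          omega
        · have := h2.other u h4 h5
          omega
  obtain ⟨τ, hτ12, hτ11, r, hr, h4, h5⟩ := hroot T hTT e he hred
  have hQ2 := hQ τ _ _ _ hQ1
  rw [hτ12, hτ11] at hQ2
  have h6 := hQT _ _ _ hQ2
  have hB2 := h6.best.odd
  have hlink : link (mapF τ (mapF σ B)) 12 = fam 12 4 r := by
    rw [← h4, ← hDe]
    conv_lhs => rw [← hτ12]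
    exact link_mapF τ _ _
  have h7 : mapF 1 (link (link (mapF τ (mapF σ B)) 12) 11) = fam 11 3 T := by
    rw [mapF_one, hlink, h5]
  have hEx : Ex b (link (mapF τ (mapF σ B)) 11) := by
    show 2 * (link (mapF τ (mapF σ B)) 11).card = 114 + b
    rw [two_mul_card_link hB2 11, h6.hy]
  have hInv : Inv (Ex b) := by
    intro ρ D hD
    show 2 * (mapF ρ D).card = 114 + b
    rw [card_mapF]
    exact hD
  obtain ⟨E, ⟨e', he', rfl⟩, h8⟩ := linkage hB2 hInv (hy T hTT).tableOK (σ := 1) rfl rfl h7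
    h6.hy.le hEx
  refine hkill T hTT r hr e' he' _ hQ2 hlink ?_
  have h9 : (1 : Equiv.Perm (Fin 13)).symm = 1 := rfl
  rw [h9, mapF_one] at h8
  exact h8

end Pool.Agent.Helper25.TY
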