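import Pool.Agent.Helper25.TY.SRoot

/-!
MP_8ee768_co, project TH-Y': reduced sublists of the labelled tables.
-/

set_option autoImplicit false

namespace Pool.Agent.Helper25.TY

open Pool.Agent.Helper79.CV (fam)
open Pool.Agent.Helper33.TY (Red)
open Pool.Agent.Helper16.TY (eF)

/-- the entries with certificate `0` -/
def keep : List ℕ → List ℕ → List ℕ
  | e :: es, w :: ws => bif Nat.beq w 0 then e :: keep es ws else keep es ws
  | _, _ => []

/-- the other entries are not reduced -/
def keepChk (T : ℕ) : List ℕ → List ℕ → Bool
  | [], _ => true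
  | _ :: _, [] => false
  | e :: es, w :: ws => (bif Nat.beq w 0 then true else nrChk T w e) && keepChk T es ws

theorem mem_keep {T : ℕ} : ∀ {es ws : List ℕ}, keepChk T es ws = true →
    ∀ e ∈ es, Red (eF T e) → e ∈ keep es ws
  | [], _, _ => fun e he => absurd he List.not_mem_nil
  | _ :: _, [], h => absurd h (by simp [keepChk])
  | e :: es, w :: ws, h => by
    rw [keepChk, Bool.and_eq_true] at h
    intro e' he' hR
    rw [keep]
    cases hw : Nat.beq w 0
    · rw [hw, cond_false] at h
      rw [cond_false]
      rcases List.mem_cons.1 he' with rfl | he'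
      · exact absurd hR (nrChk_sound h.1)
      · exact mem_keep h.2 e' he' hR
    · rw [cond_true]
      rcases List.mem_cons.1 he' with rfl | he'
      · exact List.mem_cons_self
      · exact List.mem_cons_of_mem _ (mem_keep h.2 e' he' hR)

/-- the entries of a list of chunks with certificates -/
def kAll (l : List (List ℕ × List ℕ)) : List ℕ := (l.map fun p => p.1).flatten

/-- the reduced entries -/
def kRed (l : List (List ℕ × List ℕ)) : List ℕ := (l.map fun p => keep p.1 p.2).flatten

/-- all the chunks are checked -/
def KeepP (T : ℕ) : List (List ℕ × List ℕ) → Prop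
  | [] => True
  | p :: l => keepChk T p.1 p.2 = true ∧ KeepP T l

theorem mem_kRed {T : ℕ} : ∀ {l : List (List ℕ × List ℕ)}, KeepP T l →
    ∀ e ∈ kAll l, Red (eF T e) → e ∈ kRed l
  | [], _ => fun e he => absurd he (by simp [kAll])
  | p :: l, h => by
    intro e he hR
    unfold kAll at he
    unfold kRed
    rw [List.map_cons, List.flatten_cons, List.mem_append] at he ⊢
    rcases he with he | he
    · exact Or.inl (mem_keep h.1 e he hR)
    · exact Or.inr (mem_kRed h.2 e he hR)

theorem keep_sub : ∀ {es ws : List ℕ}, ∀ e ∈ keep es ws, e ∈ es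
  | [], _ => fun e he => by simp [keep] at he
  | _ :: _, [] => fun e he => by simp [keep] at he
  | e :: es, w :: ws => by
    intro e' he'
    rw [keep] at he'
    cases hw : Nat.beq w 0
    · rw [hw, cond_false] at he'
      exact List.mem_cons_of_mem _ (keep_sub e' he')
    · rw [hw, cond_true] at he'
      rcases List.mem_cons.1 he' with rfl | he'
      · exact List.mem_cons_self
      · exact List.mem_cons_of_mem _ (keep_sub e' he')

end Pool.Agent.Helper25.TY
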