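import Pool.Agent.Helper16.TY.RunFin
import Pool.Agent.Helper39.TY.Subs
import Pool.Agent.Helper25.EN.Tab

/-!
MP_8ee768_co, project TH-Y', stage 0: from the eighteen sub-runs to the fourteen counts.
-/

set_option autoImplicit false

namespace Pool.Agent.Helper25.TY

open Pool.Agent.Helper67.TY (repA repB)
open Pool.Agent.Helper58.TB (CountSub)
open Pool.Agent.Helper39.TY
open Pool.Agent.Helper16.TY (Counts)
open Pool.Agent.Helper25.EN (CountA CountB)

/-- the twelve sub-runs with `MM ≤ 6` -/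
structure Subs6 : Prop where
  a0 : CountSub repA 513 0 6 53213
  a1 : CountSub repA 65 1536 6 120817
  a2 : CountSub repA 257 1734 6 1845
  a3 : CountSub repA 520 7 6 9812
  a4x : CountSub repA 24 1543 6 9928
  a4y : CountSub repA 26 1985 6 1961
  a4z : CountSub repA 25 1984 6 7630
  a5 : CountSub repA 192 63 6 870
  b0 : CountSub repB 520 0 6 57521
  b1 : CountSub repB 9 1536 6 118102
  b2 : CountSub repB 24 1543 6 20436
  b3 : CountSub repB 3 504 6 44

/-- the six sub-runs with `MM ≤ 4` -/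
structure Subs4 : Prop where
  a0 : CountSub repA 576 0 4 2299
  a1x : CountSub repA 33 1536 4 3286
  a1y : CountSub repA 1057 960 4 17
  a1z : CountSub repA 545 448 4 45
  b0 : CountSub repB 520 0 4 2501
  b1 : CountSub repB 17 1536 4 3050

/-- **the ten counts with `MM ≤ 6`** -/
theorem counts_of_subs (h : Subs6) : Counts :=
  ⟨cA6_0 h.a0, cA6_1 h.a1, cA6_2 h.a2, cA6_3 h.a3, cA6_4 h.a4x h.a4y h.a4z, cA6_5 h.a5,
    cB6_0 h.b0, cB6_1 h.b1, cB6_2 h.b2, cB6_3 h.b3⟩

/-- **the two counts with `MM ≤ 4` over REP(A)** -/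
theorem countA_of_subs (h : Subs4) : CountA := ⟨cA4_0 h.a0, cA4_1 h.a1x h.a1y h.a1z⟩

/-- **the two counts with `MM ≤ 4` over REP(B)** -/
theorem countB_of_subs (h : Subs4) : CountB := ⟨cB4_0 h.b0, cB4_1 h.b1⟩

end Pool.Agent.Helper25.TY
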