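import Pool.Agent.Helper25.TY.SRoot

/-!
MP_8ee768_co, project TH-Y', stage S: the driver for two points with the same `MM`.

The entries are grouped by the number of their root. Among all the ways to see the pair the one
with the smallest root is chosen, so only entries of the groups `j ≥ i` have to be dead for the
root `i`.
-/

set_option autoImplicit false

namespace Pool.Agent.Helper25.TY

open Finset
open Pool.Agent.Helper89.CV (OddCover ofMask)
open Pool.Agent.Helper97.CV
open Pool.Agent.Helper79.CV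
open Pool.Agent.Helper82.TY (below Best)
open Pool.Agent.Helper67.TY
open Pool.Agent.Helper4.CV
open Pool.Agent.Helper33.TY (Inv₂ PDead Red inv_red twoS_map)
open Pool.Agent.Helper16.TY (eF)

/-- the smaller point is reduced -/
theorem red_of_twoS {a b : ℕ} (hab : a ≤ b) (ha : a ≤ 2) {B : Finset (Finset (Fin 13))}
    (h2 : TwoS B 12 11 a b) : Red (link B 12) := by
  intro U hU
  by_cases hxU : (12 : Fin 13) ∈ U
  · have h4 : link B 12 ∩ U.powersetCard 4 ⊆ {U.erase 12} := by
      intro s hs
      rw [mem_inter, mem_link, mem_powersetCard] at hs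
      rw [mem_singleton]
      refine eq_of_subset_of_card_le ?_ ?_
      · intro c hc
        exact mem_erase.2 ⟨fun h5 => hs.1.1 (h5 ▸ hc), hs.2.1 hc⟩
      · rw [card_erase_of_mem hxU, hU, hs.2.2]
    exact (card_le_card h4).trans (by rw [card_singleton]; omega)
  · by_contra hcon
    obtain ⟨u, -, -, hu⟩ := h2.best.p_eq_three hU hxU (by omega)
    rw [h2.hx] at hu
    by_cases h4 : u = 12
    · rw [h4, h2.hx] at hu
      omega
    · by_cases h5 : u = 11
      · rw [h5, h2.hy] at hu
        omega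
      · have := h2.other u h4 h5
        omega

theorem twoS_symm {a : ℕ} {B : Finset (Finset (Fin 13))} {x y : Fin 13} (h : TwoS B x y a a) :
    TwoS B y x a a :=
  ⟨h.best, h.ind, h.ne.symm, h.hy, h.hx, fun u h1 h2 => h.other u h2 h1, h.sum⟩

/-- both points of the exchange are avoided -/
theorem swap_fix {F : Finset (Finset (Fin 13))} (h : ∀ s ∈ F, (11 : Fin 13) ∉ s ∧
    (12 : Fin 13) ∉ s) : mapF (Equiv.swap 11 12) F = F := by
  refine mapF_eq_self fun s hs a ha => Equiv.swap_apply_of_ne_of_ne ?_ ?_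
  · rintro rfl
    exact (h s hs).1 ha
  · rintro rfl
    exact (h s hs).2 ha

/-- the lane of `11` and the exchanged link -/
theorem lane_of_swap {B : Finset (Finset (Fin 13))} {E : Finset (Finset (Fin 13))}
    (h : (link (mapF (Equiv.swap 11 12) B) 12).filter (fun s => (11 : Fin 13) ∉ s) = E) :
    lane B 11 = cone 11 E := by
  have h1 : link (mapF (Equiv.swap 11 12) B) 12 = mapF (Equiv.swap 11 12) (link B 11) := by
    have h2 := link_mapF (Equiv.swap 11 12) B 11
    rwa [Equiv.swap_apply_left] at h2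
  have h3 : mapF (Equiv.swap 11 12) ((link B 11).filter (fun s => (12 : Fin 13) ∉ s)) =
      (mapF (Equiv.swap 11 12) (link B 11)).filter (fun s => (11 : Fin 13) ∉ s) := by
    refine mapF_filter _ _ _ _ fun s => ?_
    have h4 : (11 : Fin 13) ∈ mapS (Equiv.swap 11 12) s ↔ (12 : Fin 13) ∈ s := by
      rw [mem_mapS', Equiv.symm_swap, Equiv.swap_apply_left]
    rw [h4]
  rw [← h, h1, ← h3, swap_fix]
  · exact filter_eq_cone B (by decide)
  · intro s hs
    rw [mem_filter, mem_link] at hs
    exact ⟨hs.1.1, hs.2⟩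

/-- the certificates with groups -/
def RootG (T : ℕ) (R l : List ℕ) (grp : ℕ → List ℕ) : Prop :=
  ∀ e ∈ l, Red (eF T e) → ∃ j, ∃ hj : j < R.length, e ∈ grp j ∧
    ∃ σ : Equiv.Perm (Fin 13), σ 12 = 12 ∧ σ 11 = 11 ∧
      mapF σ (eF T e) = fam 12 4 R[j] ∧ link (fam 12 4 R[j]) 11 = fam 11 3 T

/-- **the pair driver for equal points** -/
theorem twoS_driver_sym {a : ℕ} (ha : a ≤ 2)
    {Q : Finset (Finset (Fin 13)) → Fin 13 → Fin 13 → Prop} (hQ : Inv₂ Q)
    (hQT : ∀ B x y, Q B x y → TwoS B x y a a) (hsym : ∀ B x y, Q B x y → Q B y x)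
    {lx R : ℕ → List ℕ} {grp : ℕ → ℕ → List ℕ}
    (hx : ∀ T, T = repA ∨ T = repB → TabE T a (lx T))
    (hroot : ∀ T, T = repA ∨ T = repB → RootG T (R T) (lx T) (grp T))
    (hkill : ∀ T, T = repA ∨ T = repB → ∀ j, ∀ e ∈ grp T j, ∀ i ≤ j,
      ∀ hi : i < (R T).length, PDead Q (R T)[i] (cone 11 (fam 11 4 e)))
    {B : Finset (Finset (Fin 13))} {x y : Fin 13} (h : Q B x y) : False := by
  have h1 := hQT _ _ _ h
  have hB := h1.best.odd
  have hm : mm B x y = 0 := h1.ind x y h1.ne (h1.hx.le.trans (by omega))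
    (h1.hy.le.trans (by omega))
  obtain ⟨σ, hσx, hσy, hσ⟩ := Pool.Agent.Helper58.TB.near_cover hB h1.ne hm
  obtain ⟨T, hTT, hTlt, hT⟩ : ∃ T, (T = repA ∨ T = repB) ∧ T < 2 ^ (11).choose 3 ∧
      enc 11 3 (link (link (mapF σ B) 12) 11) = T := by
    rcases hσ with hσ | hσ
    · exact ⟨repA, Or.inl rfl, repA_lt, hσ⟩
    · exact ⟨repB, Or.inr rfl, repB_lt, hσ⟩
  have hQ1 := hQ σ B x y h
  rw [hσx, hσy] at hQ1
  -- from the pair link to a root
  have step : ∀ B : Finset (Finset (Fin 13)), Q B 12 11 →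
      link (link B 12) 11 = fam 11 3 T → ∃ e ∈ lx T, link B 12 = eF T e ∧
        (link B 12).filter (fun s => (11 : Fin 13) ∉ s) = fam 11 4 e ∧
        ∃ j, ∃ hj : j < (R T).length, e ∈ grp T j ∧
          ∃ σ : Equiv.Perm (Fin 13), Q (mapF σ B) 12 11 ∧
            link (mapF σ B) 12 = fam 12 4 (R T)[j] ∧
            link (fam 12 4 (R T)[j]) 11 = fam 11 3 T := by
    intro B hQB hBT
    have h2 := hQT _ _ _ hQB
    have hB1 := h2.best.odd
    obtain ⟨e, he, hDe, hDf⟩ := hx T hTT _ (oddFam_twelve hB1) hBT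
      (by rw [two_mul_card_link hB1 12, h2.hx])
    have hred := red_of_twoS le_rfl ha h2
    rw [hDe] at hred
    obtain ⟨j, hj, hg, τ, hτ12, hτ11, h4, h5⟩ := hroot T hTT e he hred
    have hQ2 := hQ τ _ _ _ hQB
    rw [hτ12, hτ11] at hQ2
    refine ⟨e, he, hDe, hDf, j, hj, hg, τ, hQ2, ?_, h5⟩
    rw [← h4, ← hDe]
    conv_lhs => rw [← hτ12]
    exact link_mapF τ _ _
  -- descent on the number of the root
  have key : ∀ i, ∀ B : Finset (Finset (Fin 13)), Q B 12 11 → ∀ hi : i < (R T).length,
      link B 12 = fam 12 4 (R T)[i] → link (fam 12 4 (R T)[i]) 11 = fam 11 3 T → False := by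
    intro i
    induction i using Nat.strong_induction_on with
    | _ i ih =>
      intro B hQB hi hl hlT
      have hs := hQ (Equiv.swap 11 12) B 12 11 hQB
      rw [Equiv.swap_apply_right, Equiv.swap_apply_left] at hs
      have hs' := hsym _ _ _ hs
      have h6 : link (link (mapF (Equiv.swap 11 12) B) 12) 11 = fam 11 3 T := by
        have h7 : link (mapF (Equiv.swap 11 12) B) 12 =
            mapF (Equiv.swap 11 12) (link B 11) := by
          have h2 := link_mapF (Equiv.swap 11 12) B 11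
          rwa [Equiv.swap_apply_left] at h2
        have h8 : link (mapF (Equiv.swap 11 12) (link B 11)) 11 =
            mapF (Equiv.swap 11 12) (link (link B 11) 12) := by
          have h2 := link_mapF (Equiv.swap 11 12) (link B 11) 12
          rwa [Equiv.swap_apply_right] at h2
        rw [h7, h8, link_comm B 11 12, hl, hlT, swap_fix]
        intro s hs
        have h9 := (sub_of_mem_fam (by norm_num) hs).1
        rw [mk_lt_iff] at h9
        exact ⟨fun h => absurd (h9 11 h) (by decide), fun h => absurd (h9 12 h) (by decide)⟩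
      obtain ⟨e, he, hDe, hDf, j, hj, hg, τ, hQ2, h9, h10⟩ := step _ hs' h6
      by_cases hij : i ≤ j
      · exact hkill T hTT j e hg i hij hi B hQB hl (lane_of_swap hDf)
      · exact ih j (by omega) _ hQ2 hj h9 h10
  obtain ⟨e, he, -, -, j, hj, -, τ, hQ2, h9, h10⟩ :=
    step _ hQ1 ((enc_pair (hQT _ _ _ hQ1).best.odd hTlt).1 hT)
  exact key j _ hQ2 hj h9 h10

end Pool.Agent.Helper25.TY
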