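import Pool.Agent.Helper25.EN.Root
import Pool.Agent.Helper25.TY.SSym
import Pool.Agent.Helper54.TY.QS
import Pool.Agent.Gen.TY.EN.Grp

/-!
MP_8ee768_co, project TH-Y', stage S: the five stages from the dead pairs (root, entry).
-/

set_option autoImplicit false

namespace Pool.Agent.Helper25.TY

open Finset
open Pool.Agent.Helper89.CV (OddCover ofMask)
open Pool.Agent.Helper97.CV
open Pool.Agent.Helper79.CV
open Pool.Agent.Helper67.TY (repA repB)
open Pool.Agent.Helper4.CV
open Pool.Agent.Helper33.TY (Inv₂ PDead)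
open Pool.Agent.Helper54.TY (QS inv_QS)
open Pool.Agent.Helper25.EN
open Pool.Agent.Gen.TY.EN (rA0 rA2 rB0 rB2 a0_0 b0_0 grpA grpB)

/-! ## lists of dead pairs -/

/-- all the pairs of a root `(a, r)` of the list and an entry of the list are dead -/
def DeadE (b : ℕ) (rs : List (ℕ × ℕ)) (es : List ℕ) : Prop :=
  ∀ p ∈ rs, ∀ e ∈ es, PDead (QS p.1 b) p.2 (cone 11 (fam 11 4 e))

theorem DeadE.nil {b : ℕ} {rs : List (ℕ × ℕ)} : DeadE b rs [] :=
  fun _ _ _ he => absurd he List.not_mem_nil

theorem DeadE.nil_rs {b : ℕ} {es : List ℕ} : DeadE b [] es :=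
  fun _ hp => absurd hp List.not_mem_nil

theorem DeadE.append {b : ℕ} {rs : List (ℕ × ℕ)} {es es' : List ℕ} (h : DeadE b rs es)
    (h' : DeadE b rs es') : DeadE b rs (es ++ es') := by
  intro p hp e he
  rcases List.mem_append.1 he with he | he
  · exact h p hp e he
  · exact h' p hp e he

theorem DeadE.append_rs {b : ℕ} {rs rs' : List (ℕ × ℕ)} {es : List ℕ} (h : DeadE b rs es)
    (h' : DeadE b rs' es) : DeadE b (rs ++ rs') es := by
  intro p hp
  rcases List.mem_append.1 hp with hp | hp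
  · exact h p hp
  · exact h' p hp

/-- the next slice -/
theorem DeadE.slice {b k n : ℕ} {rs : List (ℕ × ℕ)} {es : List ℕ} (h : DeadE b rs (es.take k))
    (h' : DeadE b rs ((es.drop k).take n)) : DeadE b rs (es.take (k + n)) := by
  rw [List.take_add]
  exact h.append h'

/-- the last slice -/
theorem DeadE.of_take {b k : ℕ} {rs : List (ℕ × ℕ)} {es : List ℕ} (h : DeadE b rs (es.take k))
    (hk : es.length ≤ k) : DeadE b rs es := by
  rwa [List.take_of_length_le hk] at h

/-- the next slice of the roots -/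
theorem DeadE.slice_rs {b k n : ℕ} {rs : List (ℕ × ℕ)} {es : List ℕ}
    (h : DeadE b (rs.take k) es) (h' : DeadE b ((rs.drop k).take n) es) :
    DeadE b (rs.take (k + n)) es := by
  rw [List.take_add]
  exact h.append_rs h'

theorem DeadE.of_take_rs {b k : ℕ} {rs : List (ℕ × ℕ)} {es : List ℕ}
    (h : DeadE b (rs.take k) es) (hk : rs.length ≤ k) : DeadE b rs es := by
  rwa [List.take_of_length_le hk] at h

theorem DeadE.flatten {b : ℕ} {rs : List (ℕ × ℕ)} {ess : List (List ℕ)}
    (h : ∀ es ∈ ess, DeadE b rs es) : DeadE b rs ess.flatten := by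
  intro p hp e he
  obtain ⟨es, h1, h2⟩ := List.mem_flatten.1 he
  exact h es h1 p hp e h2

theorem DeadE.mono {b : ℕ} {rs rs' : List (ℕ × ℕ)} {es es' : List ℕ} (h : DeadE b rs es)
    (h1 : ∀ p ∈ rs', p ∈ rs) (h2 : ∀ e ∈ es', e ∈ es) : DeadE b rs' es' :=
  fun p hp e he => h p (h1 p hp) e (h2 e he)

/-! ## the roots -/

/-- roots with `MM = 0` and reduced roots with `MM = 2` -/
def rsA : List (ℕ × ℕ) := rA0.map (fun r => (0, r)) ++ rA2.map (fun r => (2, r))

def rsB : List (ℕ × ℕ) := rB0.map (fun r => (0, r)) ++ rB2.map (fun r => (2, r))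

theorem mem_rsA0 {r : ℕ} (h : r ∈ rA0) : (0, r) ∈ rsA :=
  List.mem_append_left _ (List.mem_map.2 ⟨r, h, rfl⟩)

theorem mem_rsA2 {r : ℕ} (h : r ∈ rA2) : (2, r) ∈ rsA :=
  List.mem_append_right _ (List.mem_map.2 ⟨r, h, rfl⟩)

theorem mem_rsB0 {r : ℕ} (h : r ∈ rB0) : (0, r) ∈ rsB :=
  List.mem_append_left _ (List.mem_map.2 ⟨r, h, rfl⟩)

theorem mem_rsB2 {r : ℕ} (h : r ∈ rB2) : (2, r) ∈ rsB :=
  List.mem_append_right _ (List.mem_map.2 ⟨r, h, rfl⟩)

/-! ## groups of the entries with `MM = 0` -/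

def grpChk (grp : List (List ℕ)) : List ℕ → List (ℕ × ℕ × ℕ) → Bool
  | [], _ => true
  | _ :: _, [] => false
  | e :: es, c :: cs => ((grp.getD c.2.1 []).any fun x => Nat.beq x e) && grpChk grp es cs

theorem rootG_of {T : ℕ} {G : List (List ℕ)} {R : List ℕ} {grp : List (List ℕ)} :
    ∀ {es : List ℕ} {cs : List (ℕ × ℕ × ℕ)}, rootChk T G R es cs = true →
      grpChk grp es cs = true → RootG T R es (fun j => grp.getD j [])
  | [], _, _, _ => fun e he => absurd he List.not_mem_nil
  | _ :: _, [], h, _ => absurd h (by simp [rootChk])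
  | e :: es, c :: cs, h, h' => by
    rw [rootChk, Bool.and_eq_true] at h
    rw [grpChk, Bool.and_eq_true, List.any_eq_true] at h'
    intro e' he' hR
    rcases List.mem_cons.1 he' with rfl | he'
    · have h1 := h.1
      cases hc : Nat.beq c.1 99
      · rw [hc, cond_false, Bool.and_eq_true, Nat.blt_eq] at h1
        obtain ⟨σ, h2, h3, h4, h5⟩ := Pool.Agent.Helper33.TY.relChk_spec (by norm_num) h1.1
        rw [List.getD_eq_getElem _ _ h1.2] at h4 h5
        obtain ⟨x, hx, hxe⟩ := h'.1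
        rw [Nat.eq_of_beq_eq_true hxe] at hx
        exact ⟨c.2.1, h1.2, hx, σ, h2, h3, h4, h5⟩
      · rw [hc, cond_true] at h1
        exact absurd hR (nrChk_sound h1)
    · exact rootG_of h.2 h'.2 e' he' hR

theorem grpA_ok : grpChk grpA a0_0 ka0_0 = true := by decide +kernel

theorem grpB_ok : grpChk grpB b0_0 kb0_0 = true := by decide +kernel

theorem rootGA : RootG repA rA0 (allE cA0) (fun j => grpA.getD j []) := by
  rw [allE_A0]
  exact rootG_of rt_a0_0 grpA_ok

theorem rootGB : RootG repB rB0 (allE cB0) (fun j => grpB.getD j []) := by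
  rw [allE_B0]
  exact rootG_of rt_b0_0 grpB_ok

/-! ## the stages -/

theorem repB_ne : repB ≠ repA := by decide +kernel

/-- choice by the pair link -/
def sel {α : Type} (x y : α) (T : ℕ) : α := if T = repA then x else y

theorem sel_A {α : Type} (x y : α) : sel x y repA = x := if_pos rfl

theorem sel_B {α : Type} (x y : α) : sel x y repB = y := if_neg repB_ne

theorem both {P : ℕ → Prop} (hA : P repA) (hB : P repB) : ∀ T, T = repA ∨ T = repB → P T := by
  rintro T (rfl | rfl)
  · exact hA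
  · exact hB

/-- the generic stage -/
theorem stage_of {a b : ℕ} (hab : a ≤ b) (ha : a ≤ 2) (hb : b ≤ 4)
    {xA xB yA yB RA RB : List ℕ} (hxA : TabE repA a xA) (hxB : TabE repB a xB)
    (hyA : TabE repA b yA) (hyB : TabE repB b yB) (hRA : RootE repA RA xA)
    (hRB : RootE repB RB xB)
    (hdA : ∀ r ∈ RA, ∀ e ∈ yA, PDead (QS a b) r (cone 11 (fam 11 4 e)))
    (hdB : ∀ r ∈ RB, ∀ e ∈ yB, PDead (QS a b) r (cone 11 (fam 11 4 e)))
    {B : Finset (Finset (Fin 13))} {x y : Fin 13} (h : QS a b B x y) : False := by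
  refine twoS_driver (lx := sel xA xB) (ly := sel yA yB) (R := sel RA RB) hab ha hb
    (inv_QS a b) (fun _ _ _ h => h.1) ?_ ?_ ?_ ?_ h
  · exact both (by rw [sel_A]; exact hxA) (by rw [sel_B]; exact hxB)
  · exact both (by rw [sel_A]; exact hyA) (by rw [sel_B]; exact hyB)
  · exact both (by rw [sel_A, sel_A]; exact hRA) (by rw [sel_B, sel_B]; exact hRB)
  · exact both (by rw [sel_A, sel_A]; exact hdA) (by rw [sel_B, sel_B]; exact hdB)

/-- the dead pairs with `b = 4` -/
structure Dead4 : Prop where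
  a : DeadE 4 rsA (allE cA4)
  b : DeadE 4 rsB (allE cB4)

/-- the dead pairs with `b = 2` -/
structure Dead2 : Prop where
  a : DeadE 2 rsA (allE cA2)
  b : DeadE 2 rsB (allE cB2)

/-- the dead pairs with `b = 0`: the entries of the group `j` with the roots `0, .., j` -/
structure Dead0 : Prop where
  a : ∀ j < 16, DeadE 0 ((rA0.take (j + 1)).map fun r => (0, r)) (grpA.getD j [])
  b : ∀ j < 17, DeadE 0 ((rB0.take (j + 1)).map fun r => (0, r)) (grpB.getD j [])

theorem stS04 (cA : CountA) (cB : CountB) (h : Dead4) : St04 := by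
  intro B x y hT z w _ hz _
  exact stage_of (a := 0) (b := 4) (by norm_num) (by norm_num) (by norm_num)
    (tabE_A cA).1 (tabE_B cB).1 (tabE_A cA).2.2 (tabE_B cB).2.2 rootA0 rootB0
    (fun r hr e he => h.a _ (mem_rsA0 hr) e he) (fun r hr e he => h.b _ (mem_rsB0 hr) e he)
    (Pool.Agent.Helper54.TY.QS.of (by norm_num) (by norm_num) hT hz)

theorem stS24 (cA : CountA) (cB : CountB) (h : Dead4) : St24 := by
  intro B x y hT z w v _ _ _ hz
  intros
  exact stage_of (a := 2) (b := 4) (by norm_num) (by norm_num) (by norm_num)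
    (tabE_A cA).2.1 (tabE_B cB).2.1 (tabE_A cA).2.2 (tabE_B cB).2.2 rootA2 rootB2
    (fun r hr e he => h.a _ (mem_rsA2 hr) e he) (fun r hr e he => h.b _ (mem_rsB2 hr) e he)
    (Pool.Agent.Helper54.TY.QS.of (by norm_num) (by norm_num) hT hz)

theorem stS02 (cA : CountA) (cB : CountB) (h : Dead2) : St02 := by
  intro B x y hT z hz
  exact stage_of (a := 0) (b := 2) (by norm_num) (by norm_num) (by norm_num)
    (tabE_A cA).1 (tabE_B cB).1 (tabE_A cA).2.1 (tabE_B cB).2.1 rootA0 rootB0
    (fun r hr e he => h.a _ (mem_rsA0 hr) e he) (fun r hr e he => h.b _ (mem_rsB0 hr) e he)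
    (Pool.Agent.Helper54.TY.QS.of (by norm_num) (by norm_num) hT hz)

theorem stS22 (cA : CountA) (cB : CountB) (h : Dead2) : St22 := by
  intro B x y hT z w _ hz _
  exact stage_of (a := 2) (b := 2) (by norm_num) (by norm_num) (by norm_num)
    (tabE_A cA).2.1 (tabE_B cB).2.1 (tabE_A cA).2.1 (tabE_B cB).2.1 rootA2 rootB2
    (fun r hr e he => h.a _ (mem_rsA2 hr) e he) (fun r hr e he => h.b _ (mem_rsB2 hr) e he)
    (Pool.Agent.Helper54.TY.QS.of (by norm_num) (by norm_num) hT hz)

theorem length_rA0 : rA0.length = 16 := by decide +kernel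

theorem length_rB0 : rB0.length = 17 := by decide +kernel

theorem length_grpA : grpA.length = 16 := by decide +kernel

theorem length_grpB : grpB.length = 17 := by decide +kernel

/-- **the stage `(0,0)` with a point `MM = 6`** -/
theorem stS00 (cA : CountA) (cB : CountB) (h : Dead0) :
    ∀ B x y, TwoS B x y 0 0 → ∀ z, MM B z = 6 → False := by
  intro B x y hT z hz
  have key : ∀ {R : List ℕ} {grp : List (List ℕ)} {n : ℕ}, R.length = n → grp.length = n →
      (∀ j < n, DeadE 0 ((R.take (j + 1)).map fun r => (0, r)) (grp.getD j [])) →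
      ∀ j, ∀ e ∈ grp.getD j [], ∀ i ≤ j, ∀ hi : i < R.length,
        PDead (QS 0 0) R[i] (cone 11 (fam 11 4 e)) := by
    intro R grp n hR hg hd j e he i hij hi
    by_cases hj : j < n
    · refine hd j hj (0, R[i]) (List.mem_map.2 ⟨R[i], ?_, rfl⟩) e he
      rw [List.mem_take_iff_getElem]
      exact ⟨i, by omega, rfl⟩
    · rw [List.getD_eq_getElem?_getD, List.getElem?_eq_none (by omega), Option.getD_none] at he
      exact absurd he List.not_mem_nil
  refine twoS_driver_sym (a := 0) (Q := QS 0 0) (lx := sel (allE cA0) (allE cB0))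
    (R := sel rA0 rB0) (grp := sel (fun j => grpA.getD j []) (fun j => grpB.getD j []))
    (by norm_num) (inv_QS 0 0) (fun _ _ _ h => h.1) ?_ ?_ ?_ ?_
    (Pool.Agent.Helper54.TY.QS.of (by norm_num) (by norm_num) hT hz)
  · rintro B x y ⟨h1, z, hx, hy, hz⟩
    exact ⟨twoS_symm h1, z, hy, hx, hz⟩
  · exact both (by rw [sel_A]; exact (tabE_A cA).1) (by rw [sel_B]; exact (tabE_B cB).1)
  · exact both (by rw [sel_A, sel_A, sel_A]; exact rootGA)
      (by rw [sel_B, sel_B, sel_B]; exact rootGB)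
  · exact both (by rw [sel_A, sel_A]; exact key length_rA0 length_grpA h.a)
      (by rw [sel_B, sel_B]; exact key length_rB0 length_grpB h.b)

end Pool.Agent.Helper25.TY
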