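import Pool.Agent.Helper25.TY.SComp

/-!
MP_8ee768_co, project TH-Y', stage S: kernel check of the labelled tables.

A chunk is a strictly increasing list of entries (codes of the blocks inside `{0, .., 10}`) with
the list of the zero masks. `okChunk` checks on the packed fields that every entry is an odd
family with pair link `T`, exactly `c` members and the given zero points.
-/

set_option autoImplicit false
set_option exponentiation.threshold 600

namespace Pool.Agent.Helper25.TY

open Finset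
open Pool.Agent.Helper89.CV (OddCover ofMask)
open Pool.Agent.Helper97.CV
open Pool.Agent.Helper79.CV
open Pool.Agent.Helper63.SIMD
open Pool.Agent.Helper82.TY (below)
open Pool.Agent.Helper67.TY
open Pool.Agent.Helper69.TY (force force_eq psum psum_eq pcb pcb_le)
open Pool.Agent.Helper16.TY (eF code zs Good goodX goodX_sound packL fld_packL allLt lt_of_allLt
  zd_iff code_mod card_eq_pcb pcb_congr testBit_code_zs testBit_code fam_of_code)

/-- the blocks avoiding `11` -/
theorem fam_low11 {D : Finset (Finset (Fin 13))} (hD : ∀ s ∈ D, Sub 12 4 s) :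
    fam 11 4 (enc 11 4 D) = D.filter (fun s => (11 : Fin 13) ∉ s) := by
  have h1 : enc 11 4 D = enc 11 4 (D.filter (fun s => (11 : Fin 13) ∉ s)) := by
    refine Nat.eq_of_testBit_eq fun i => ?_
    by_cases hi : i < (L 11 4).length
    · rw [testBit_enc _ hi, testBit_enc _ hi, decide_eq_decide, mem_filter]
      refine ⟨fun h => ⟨h, ?_⟩, fun h => h.1⟩
      exact notMem_ofMask 11 (lt_of_mem_L (List.getElem_mem hi))
    · rw [testBit_enc_ge _ (by omega), testBit_enc_ge _ (by omega)]
  rw [h1, fam_enc (by norm_num)]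
  intro s hs
  rw [mem_filter] at hs
  have h2 := hD s hs.1
  refine ⟨mk_lt_iff.2 fun a ha => ?_, h2.2⟩
  have h3 := mk_lt_iff.1 h2.1 a ha
  have h4 : a.val ≠ 11 := fun h => hs.2 ((Fin.ext h : a = 11) ▸ ha)
  omega

/-- the fields of a chunk -/
def mkv (T : ℕ) : List ℕ → List ℕ → List ℕ
  | e :: es, z :: zs =>
    Nat.add (Nat.mul (2 ^ 495) z) (Nat.add (Nat.mul (2 ^ 330) T) e) :: mkv T es zs
  | _, _ => []

theorem mkv_length (T : ℕ) : ∀ {es zs : List ℕ}, es.length = zs.length →
    (mkv T es zs).length = es.length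
  | [], _, _ => by simp [mkv]
  | e :: es, [], h => by simp at h
  | e :: es, z :: zs, h => by
    rw [mkv, List.length_cons, List.length_cons, mkv_length T (by simpa using h)]

theorem mkv_getElem (T : ℕ) : ∀ {es zs : List ℕ} {i : ℕ} (h : i < (mkv T es zs).length)
    (h1 : i < es.length) (h2 : i < zs.length),
    (mkv T es zs)[i] = 2 ^ 495 * zs[i] + (2 ^ 330 * T + es[i])
  | [], _, i, _, h1, _ => absurd h1 (by simp)
  | e :: es, [], i, _, _, h2 => absurd h2 (by simp)
  | e :: es, z :: zs, 0, _, _, _ => rfl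
  | e :: es, z :: zs, i + 1, h, h1, h2 => by
    have h3 := mkv_getElem T (es := es) (zs := zs) (i := i)
      (by simpa [mkv] using h) (by simpa using h1) (by simpa using h2)
    exact h3

/-- entry `e` with zero mask `z`: pair link `T`, exactly `c` members -/
def IsE (T c e z : ℕ) : Prop :=
  e < 2 ^ 330 ∧ OddFam 3 (below 12) (eF T e) ∧ link (eF T e) 11 = fam 11 3 T ∧
    (eF T e).card = c ∧ ∀ m < 2 ^ 12, (ZD (eF T e) m ↔ m &&& z = m)

def okChunk (T c N : ℕ) (es zs : List ℕ) : Bool :=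
  Nat.beq es.length N && (Nat.beq zs.length N && (allLt (2 ^ 330) es && (allLt (2 ^ 12) zs &&
    force (packL 512 (mkv T es zs)) fun X => goodX N c X &&
      force (rep 512 N) fun R => Nat.beq (psum X R 495) (Nat.mul c R))))

theorem okChunk_sound {T c N : ℕ} {es zs : List ℕ} (hT : T < 2 ^ 165) (hc : c < 64)
    (h : okChunk T c N es zs = true) : List.Forall₂ (IsE T c) es zs := by
  unfold okChunk at h
  rw [force_eq, force_eq, Bool.and_eq_true, Bool.and_eq_true, Bool.and_eq_true, Bool.and_eq_true,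
    Bool.and_eq_true, Nat.beq_eq, Nat.beq_eq, Nat.beq_eq] at h
  obtain ⟨h1, h2, h3, h4, h5, h6⟩ := h
  rw [List.forall₂_iff_get]
  refine ⟨by omega, ?_⟩
  intro i hi hi'
  rw [List.get_eq_getElem, List.get_eq_getElem]
  have hN : i < N := by omega
  have he : es[i] < 2 ^ 330 := lt_of_allLt h3 _ (List.getElem_mem hi)
  have hz : zs[i] < 2 ^ 12 := lt_of_allLt h4 _ (List.getElem_mem hi')
  have hlen := mkv_length T (es := es) (zs := zs) (by omega)
  have hsum : 2 ^ 330 * T + es[i] < 2 ^ 495 := by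
    have e1 : (2 : ℕ) ^ 495 = 2 ^ 330 * 2 ^ 165 := by norm_num
    rw [e1]
    calc 2 ^ 330 * T + es[i] < 2 ^ 330 * T + 2 ^ 330 := by omega
      _ = 2 ^ 330 * (T + 1) := by ring
      _ ≤ 2 ^ 330 * 2 ^ 165 := Nat.mul_le_mul_left _ hT
  have hlt : ∀ a ∈ mkv T es zs, a < 2 ^ 512 := by
    intro a ha
    obtain ⟨j, hj, rfl⟩ := List.getElem_of_mem ha
    have hj1 : j < es.length := by omega
    have hj2 : j < zs.length := by omega
    rw [mkv_getElem T hj hj1 hj2]
    have he : es[j] < 2 ^ 330 := lt_of_allLt h3 _ (List.getElem_mem hj1)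
    have hz : zs[j] < 2 ^ 12 := lt_of_allLt h4 _ (List.getElem_mem hj2)
    have hsum : 2 ^ 330 * T + es[j] < 2 ^ 495 := by
      have e1 : (2 : ℕ) ^ 495 = 2 ^ 330 * 2 ^ 165 := by norm_num
      rw [e1]
      calc 2 ^ 330 * T + es[j] < 2 ^ 330 * T + 2 ^ 330 := by omega
        _ = 2 ^ 330 * (T + 1) := by ring
        _ ≤ 2 ^ 330 * 2 ^ 165 := Nat.mul_le_mul_left _ hT
    calc 2 ^ 495 * zs[j] + (2 ^ 330 * T + es[j]) < 2 ^ 495 * zs[j] + 2 ^ 495 := by omega
      _ = 2 ^ 495 * (zs[j] + 1) := by ring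
      _ ≤ 2 ^ 495 * 2 ^ 12 := Nat.mul_le_mul_left _ hz
      _ ≤ 2 ^ 512 := by norm_num
  have hfld : fld 512 (packL 512 (mkv T es zs)) i =
      2 ^ 495 * zs[i] + (2 ^ 330 * T + es[i]) := by
    rw [fld_packL hlt (by omega), mkv_getElem T (by omega) hi hi']
  obtain ⟨D, hD, -, hv⟩ := goodX_sound (cap := 2 * c) hc (by omega) h5 hN
  have hcode := hv
  rw [hfld] at hv
  have hencD : enc 12 4 D = es[i] + 2 ^ 330 * T := by
    rw [← code_mod D (Pool.Agent.Helper16.TY.zs D), ← hv, Nat.mul_add_mod, Nat.mod_eq_of_lt hsum,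
      Nat.add_comm]
  have hDF : eF T es[i] = D := by
    unfold eF
    rw [← hencD, fam_enc (by norm_num) (sub_twelve hD)]
  have hbit : ∀ j < 12, (code D (Pool.Agent.Helper16.TY.zs D)).testBit (495 + j) =
      zs[i].testBit j := by
    intro j hj
    rw [← hv, Nat.add_comm 495 j, ← Nat.testBit_div_two_pow, Nat.mul_add_div (by positivity),
      Nat.div_eq_of_lt hsum, Nat.add_zero]
  refine ⟨he, ?_, ?_, ?_, ?_⟩
  · rw [hDF]
    exact hD
  · unfold eF
    have hr : es[i] + 2 ^ 330 * T < 2 ^ (11 + 1).choose (3 + 1) := by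
      have e1 : (11 + 1).choose (3 + 1) = 495 := by decide
      rw [e1]
      omega
    have h7 := Pool.Agent.Helper33.TY.link_fam_last 11 3 (es[i] + 2 ^ 330 * T) hr
    have e2 : (11 : Fin 13).val.choose (3 + 1) = 330 := by decide
    rw [e2] at h7
    have e3 : (es[i] + 2 ^ 330 * T) >>> 330 = T := by
      rw [Nat.shiftRight_eq_div_pow, Nat.add_mul_div_left _ _ (by positivity),
        Nat.div_eq_of_lt he, Nat.zero_add]
    rw [e3] at h7
    exact h7
  · rw [hDF]
    rw [psum_eq (by norm_num) (by norm_num : 495 ≤ 512)] at h6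
    have h7 : pk 512 N (fun i => pcb (fld 512 (packL 512 (mkv T es zs)) i) 495) =
        pk 512 N (fun _ => c) := by
      rw [h6]
      exact mul_rep (by norm_num) c
    have h8 := (pk_inj (fun j _ => by
      have h9 := pcb_le (fld 512 (packL 512 (mkv T es zs)) j) 495
      have h10 : (495 : ℕ) < 2 ^ 512 := by norm_num
      omega) (fun _ _ => by
      have h10 : (64 : ℕ) < 2 ^ 512 := by norm_num
      show c < 2 ^ 512
      omega)).1 h7 i hN
    rw [← fam_of_code hD (Pool.Agent.Helper16.TY.zs D),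
      card_eq_pcb (Nat.mod_lt _ (by positivity)), ← hcode, ← h8]
    refine pcb_congr fun q hq => ?_
    rw [Nat.testBit_mod_two_pow, decide_eq_true hq, Bool.true_and]
  · intro m hm
    rw [hDF, zd_iff hm]
    constructor
    · intro h7
      refine Nat.eq_of_testBit_eq fun j => ?_
      rw [Nat.testBit_and]
      by_cases hj : m.testBit j = true
      · have hj12 : j < 12 := by
          by_contra h8
          rw [Nat.testBit_lt_two_pow (lt_of_lt_of_le hm (Nat.pow_le_pow_right (by norm_num)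
            (by omega)))] at hj
          exact Bool.false_ne_true hj
        have h8 := h7 j hj
        rw [hbit j hj12] at h8
        rw [hj, h8]
        rfl
      · rw [Bool.not_eq_true] at hj
        rw [hj]
        rfl
    · intro h7 j hj
      have hj12 : j < 12 := by
        by_contra h8
        rw [Nat.testBit_lt_two_pow (lt_of_lt_of_le hm (Nat.pow_le_pow_right (by norm_num)
          (by omega)))] at hj
        exact Bool.false_ne_true hj
      rw [hbit j hj12]
      rw [← h7, Nat.testBit_and, Bool.and_eq_true] at hj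
      exact hj.2

/-! ## order and counts -/

/-- strictly increasing between `lo` and `hi` -/
def sortedL (hi : ℕ) : ℕ → List ℕ → Bool
  | lo, [] => Nat.ble lo hi
  | lo, e :: es => Nat.blt lo e && sortedL hi e es

/-- the pair `p` is zero, no pair of the list is zero -/
def tst (p : ℕ) (forb : List ℕ) (z : ℕ) : Bool :=
  Nat.beq (Nat.land p z) p && forb.all fun q => !(Nat.beq (Nat.land q z) q)

/-- number of zero masks with the test -/
def cntZ (p : ℕ) (forb : List ℕ) (zs : List ℕ) : ℕ :=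
  List.rec (motive := fun _ => ℕ) 0 (fun z _ ih => Nat.add (cond (tst p forb z) 1 0) ih) zs

theorem sortedL_le {hi : ℕ} : ∀ {es : List ℕ} {lo : ℕ}, sortedL hi lo es = true → lo ≤ hi
  | [], lo, h => Nat.le_of_ble_eq_true h
  | e :: es, lo, h => by
    rw [sortedL, Bool.and_eq_true] at h
    have h1 := sortedL_le h.2
    have h2 := blt_true h.1
    omega

/-- the entries of a chunk with the test -/
theorem chunk_seg {T c hi p : ℕ} {forb : List ℕ} : ∀ {es zs : List ℕ} {lo : ℕ},
    List.Forall₂ (IsE T c) es zs → sortedL hi lo es = true → ∃ F : Finset ℕ,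
      F.card = cntZ p forb zs ∧ ∀ e ∈ F, (lo < e ∧ e ≤ hi) ∧ e ∈ es ∧
        ∃ z, IsE T c e z ∧ tst p forb z = true
  | _, _, lo, .nil, _ => ⟨∅, rfl, fun e he => absurd he (notMem_empty e)⟩
  | _, _, lo, .cons (a := e) (b := z) (l₁ := es) (l₂ := zs) h1 h2, hs => by
    classical
    rw [sortedL, Bool.and_eq_true] at hs
    obtain ⟨F, h3, h4⟩ := chunk_seg (p := p) (forb := forb) h2 hs.2
    have h5 := blt_true hs.1
    have h6 := sortedL_le hs.2
    have hF : ∀ x ∈ F, (lo < x ∧ x ≤ hi) ∧ x ∈ e :: es ∧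
        ∃ z, IsE T c x z ∧ tst p forb z = true := by
      intro x hx
      obtain ⟨⟨h7, h8⟩, h9, h10⟩ := h4 x hx
      exact ⟨⟨by omega, h8⟩, List.mem_cons_of_mem _ h9, h10⟩
    by_cases ht : tst p forb z = true
    · refine ⟨insert e F, ?_, ?_⟩
      · rw [card_insert_of_notMem, h3]
        · show _ = (cond (tst p forb z) 1 0) + cntZ p forb zs
          rw [ht, cond_true, Nat.add_comm]
        · intro he
          have := (h4 e he).1.1
          omega
      · intro x hx
        rw [mem_insert] at hx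
        rcases hx with rfl | hx
        · exact ⟨⟨h5, h6⟩, List.mem_cons_self, z, h1, ht⟩
        · exact hF x hx
    · refine ⟨F, ?_, hF⟩
      rw [Bool.not_eq_true] at ht
      show _ = (cond (tst p forb z) 1 0) + cntZ p forb zs
      rw [ht, cond_false, Nat.zero_add, h3]

/-! ## a table of chunks -/

/-- the chunks of the entries with exactly `c` members: `(hi, N, entries, zero masks)` -/
def TabP (T c : ℕ) : ℕ → List (ℕ × ℕ × List ℕ × List ℕ) → Prop
  | _, [] => True
  | lo, (hi, N, es, zs) :: r => okChunk T c N es zs = true ∧ sortedL hi lo es = true ∧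
      TabP T c hi r

/-- all the entries -/
def allE (cs : List (ℕ × ℕ × List ℕ × List ℕ)) : List ℕ := (cs.map fun c => c.2.2.1).flatten

/-- number of the entries with the test -/
def tabCnt (p : ℕ) (forb : List ℕ) (cs : List (ℕ × ℕ × List ℕ × List ℕ)) : ℕ :=
  List.rec (motive := fun _ => ℕ) 0 (fun c _ ih => Nat.add (cntZ p forb c.2.2.2) ih) cs

theorem tab_mem {T c : ℕ} (hT : T < 2 ^ 165) (hc : c < 64) :
    ∀ {cs : List (ℕ × ℕ × List ℕ × List ℕ)} {lo : ℕ}, TabP T c lo cs → ∀ e ∈ allE cs,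
      ∃ z, IsE T c e z
  | [], lo, _, e, he => by simp [allE] at he
  | (hi, N, es, zs) :: r, lo, h, e, he => by
    obtain ⟨h1, h2, h3⟩ := h
    unfold allE at he
    rw [List.map_cons, List.flatten_cons, List.mem_append] at he
    rcases he with he | he
    · obtain ⟨i, hi, rfl⟩ := List.getElem_of_mem he
      have h4 := okChunk_sound hT hc h1
      rw [List.forall₂_iff_get] at h4
      have h5 := h4.2 i hi (by rw [← h4.1]; exact hi)
      exact ⟨_, h5⟩
    · exact tab_mem hT hc h3 e he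

theorem tab_seg {T c p : ℕ} (hT : T < 2 ^ 165) (hc : c < 64) {forb : List ℕ} :
    ∀ {cs : List (ℕ × ℕ × List ℕ × List ℕ)} {lo : ℕ}, TabP T c lo cs → ∃ F : Finset ℕ,
      F.card = tabCnt p forb cs ∧ ∀ e ∈ F, lo < e ∧ e ∈ allE cs ∧
        ∃ z, IsE T c e z ∧ tst p forb z = true
  | [], lo, _ => ⟨∅, rfl, fun e he => absurd he (notMem_empty e)⟩
  | (hi, N, es, zs) :: r, lo, h => by
    classical
    obtain ⟨h1, h2, h3⟩ := h
    obtain ⟨F, h4, h5⟩ := chunk_seg (p := p) (forb := forb) (okChunk_sound hT hc h1) h2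
    obtain ⟨F', h6, h7⟩ := tab_seg (p := p) (forb := forb) hT hc h3
    have h8 := sortedL_le h2
    refine ⟨F ∪ F', ?_, ?_⟩
    · rw [card_union_of_disjoint, h4, h6]
      · rfl
      · rw [disjoint_left]
        intro e he he'
        have h9 := (h5 e he).1.2
        have h10 := (h7 e he').1
        omega
    · intro e he
      unfold allE
      rw [List.map_cons, List.flatten_cons, List.mem_append]
      rw [mem_union] at he
      rcases he with he | he
      · obtain ⟨h9, h10, h11⟩ := h5 e he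
        exact ⟨h9.1, Or.inl h10, h11⟩
      · obtain ⟨h9, h10, h11⟩ := h7 e he
        exact ⟨by omega, Or.inr h10, h11⟩

theorem tst_spec {T c e z p : ℕ} {forb : List ℕ} (hp : p < 2 ^ 12)
    (hf : ∀ q ∈ forb, q < 2 ^ 12) (h : IsE T c e z) (ht : tst p forb z = true) :
    ZD (eF T e) p ∧ ∀ q ∈ forb, ¬ ZD (eF T e) q := by
  unfold tst at ht
  rw [Bool.and_eq_true, Nat.beq_eq, List.all_eq_true] at ht
  refine ⟨(h.2.2.2.2 p hp).2 ht.1, fun q hq hz => ?_⟩
  have h1 := ht.2 q hq
  rw [Bool.not_eq_true', Bool.eq_false_iff, Ne, Nat.beq_eq] at h1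
  exact h1 ((h.2.2.2.2 q (hf q hq)).1 hz)

/-- the entries of the three groups with the test -/
theorem seg_three {T p : ℕ} {forb : List ℕ} (hT : T < 2 ^ 165)
    {c0 c2 c4 : List (ℕ × ℕ × List ℕ × List ℕ)} (h0 : TabP T 57 0 c0) (h2 : TabP T 58 0 c2)
    (h4 : TabP T 59 0 c4) : ∃ F : Finset ℕ,
      F.card = tabCnt p forb c0 + tabCnt p forb c2 + tabCnt p forb c4 ∧ ∀ e ∈ F,
        e ∈ allE c0 ++ allE c2 ++ allE c4 ∧ ∃ c ≤ 59, ∃ z, IsE T c e z ∧ tst p forb z = true := by
  classical
  obtain ⟨F0, a0, b0⟩ := tab_seg (p := p) (forb := forb) hT (by norm_num) h0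
  obtain ⟨F2, a2, b2⟩ := tab_seg (p := p) (forb := forb) hT (by norm_num) h2
  obtain ⟨F4, a4, b4⟩ := tab_seg (p := p) (forb := forb) hT (by norm_num) h4
  refine ⟨F0 ∪ F2 ∪ F4, ?_, ?_⟩
  · rw [card_union_of_disjoint, card_union_of_disjoint, a0, a2, a4]
    · rw [disjoint_left]
      intro e he he'
      obtain ⟨-, -, z, h5, -⟩ := b0 e he
      obtain ⟨-, -, z', h6, -⟩ := b2 e he'
      have h7 := h5.2.2.2.1
      have h8 := h6.2.2.2.1
      omega
    · rw [disjoint_left]
      intro e he he'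
      obtain ⟨-, -, z', h6, -⟩ := b4 e he'
      have h8 := h6.2.2.2.1
      rw [mem_union] at he
      rcases he with he | he
      · obtain ⟨-, -, z, h5, -⟩ := b0 e he
        have h7 := h5.2.2.2.1
        omega
      · obtain ⟨-, -, z, h5, -⟩ := b2 e he
        have h7 := h5.2.2.2.1
        omega
  · intro e he
    rw [mem_union, mem_union] at he
    rw [List.mem_append, List.mem_append]
    rcases he with (he | he) | he
    · obtain ⟨-, h5, h6⟩ := b0 e he
      exact ⟨Or.inl (Or.inl h5), 57, by norm_num, h6⟩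
    · obtain ⟨-, h5, h6⟩ := b2 e he
      exact ⟨Or.inl (Or.inr h5), 58, by norm_num, h6⟩
    · obtain ⟨-, h5, h6⟩ := b4 e he
      exact ⟨Or.inr h5, 59, by norm_num, h6⟩

/-- the counts for all the pairs of the orbits -/
def cntOK (K : ℕ → ℕ) (c0 c2 c4 : List (ℕ × ℕ × List ℕ × List ℕ))
    (runs : List (ℕ × List (ℕ × ℕ))) : Bool :=
  (List.range runs.length).all fun r => ((runs.getD r (0, [])).2).all fun p =>
    Nat.ble (K r) (Nat.add (Nat.add (tabCnt p.1 (prevs runs r) c0) (tabCnt p.1 (prevs runs r) c2))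
      (tabCnt p.1 (prevs runs r) c4))

/-- **the table for `MM ≤ 4`** -/
theorem table_four {T : ℕ} (hTlt : T < 2 ^ 165) {G : List (List ℕ)}
    {runs : List (ℕ × List (ℕ × ℕ))} (hG : G.all (gOK T) = true)
    (hR : runs.all (runOK G) = true) (hC : coverOK runs (11 - 4) = true)
    (hS : ∀ r < runs.length, surjOK G (prevs runs r) = true) {K : ℕ → ℕ}
    (hK : ∀ r, ∀ h : r < runs.length, CountRun T (runs[r]).1 (prevs runs r) 4 (K r))
    {c0 c2 c4 : List (ℕ × ℕ × List ℕ × List ℕ)} (h0 : TabP T 57 0 c0) (h2 : TabP T 58 0 c2)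
    (h4 : TabP T 59 0 c4) (hcnt : cntOK K c0 c2 c4 runs = true)
    {D : Finset (Finset (Fin 13))} (hD : OddFam 3 (below 12) D) (hDT : link D 11 = fam 11 3 T)
    (hc : 2 * D.card ≤ 114 + 4) : ∃ e ∈ allE c0 ++ allE c2 ++ allE c4, D = eF T e := by
  have e330 : (11).choose 4 = 330 := by decide
  have e165 : (11).choose 3 = 165 := by decide
  have hT' : T < 2 ^ (11).choose 3 := by
    rw [e165]
    exact hTlt
  have hR' := hR
  rw [List.all_eq_true] at hR'
  have hrun : ∀ r ∈ runs, ∀ p ∈ r.2, p.1 < 2 ^ 12 := by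
    intro r hr p hp
    have h1 := hR' _ hr
    unfold runOK at h1
    rw [Bool.and_eq_true, List.all_eq_true] at h1
    have h2 := h1.1 p hp
    rw [Bool.and_eq_true, Bool.and_eq_true] at h2
    have h3 := blt_true h2.1.1
    norm_num
    omega
  refine table_of_counts (P := fun D => ∃ e ∈ allE c0 ++ allE c2 ++ allE c4, D = eF T e) hT' hG
    hR hC hS hK ?_ hD hDT hc
  intro r hr p hp
  have hf : ∀ q ∈ prevs runs r, q < 2 ^ 12 := by
    intro q hq
    obtain ⟨s, hs, -, p', hp', rfl⟩ := mem_prevs hq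
    exact hrun _ (List.getElem_mem hs) p' hp'
  obtain ⟨F, h5, h6⟩ := seg_three (p := p.1) (forb := prevs runs r) hTlt h0 h2 h4
  refine ⟨F, ?_, ?_⟩
  · unfold cntOK at hcnt
    rw [List.all_eq_true] at hcnt
    have h7 := hcnt r (List.mem_range.2 hr)
    rw [List.getD_eq_getElem _ _ hr, List.all_eq_true] at h7
    have h8 := Nat.le_of_ble_eq_true (h7 p hp)
    rw [h5]
    exact h8
  · intro e he
    obtain ⟨h7, c, hc59, z, h8, h9⟩ := h6 e he
    obtain ⟨h10, h11⟩ := tst_spec (hrun _ (List.getElem_mem hr) p hp) hf h8 h9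
    obtain ⟨h12, h13, h14, h15, -⟩ := h8
    rw [e330]
    refine ⟨h12, ⟨h13, h14, ?_, h10, h11⟩, e, h7, rfl⟩
    show 2 * (eF T e).card ≤ 114 + 4
    omega

/-- the code of the blocks inside `{0, .., 10}` of an entry -/
theorem enc_eF {T e : ℕ} (hT : T < 2 ^ 165) (he : e < 2 ^ 330) : enc 11 4 (eF T e) = e := by
  have e330 : (11).choose 4 = 330 := by decide
  have e165 : (11).choose 3 = 165 := by decide
  have h1 := enc_split (11 : Fin 13) 3 (eF T e)
  have h2 : enc 12 4 (eF T e) = enc 11 4 (eF T e) + 2 ^ (11).choose 4 *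
      enc 11 3 (link (eF T e) 11) := h1
  have h3 : enc 12 4 (eF T e) = e + 2 ^ 330 * T := by
    unfold eF
    refine enc_fam (by norm_num) ?_
    have h4 := lt_split (T := T) (by rw [e165]; exact hT) (e := e) (by rw [e330]; exact he)
    rw [e330] at h4
    exact h4
  have h5 : enc 11 4 (eF T e) < 2 ^ (11).choose 4 := enc_lt 11 4 _
  rw [e330] at h2 h5
  generalize enc 11 4 (eF T e) = x at h2 h5 ⊢
  generalize enc 11 3 (link (eF T e) 11) = y at h2
  rw [h3] at h2
  have h6 := congrArg (fun v => v % 2 ^ 330) h2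
  simp only [Nat.add_mul_mod_self_left] at h6
  rw [Nat.mod_eq_of_lt he, Nat.mod_eq_of_lt h5] at h6
  exact h6.symm

/-- the blocks avoiding `11` of an entry -/
theorem filter_eF {T c e z : ℕ} (hT : T < 2 ^ 165) (h : IsE T c e z) :
    (eF T e).filter (fun s => (11 : Fin 13) ∉ s) = fam 11 4 e := by
  rw [← fam_low11 (sub_twelve h.2.1), enc_eF hT h.1]

/-- the codes of a table as families -/
def famS (l : List ℕ) : Set (Finset (Finset (Fin 13))) := {E | ∃ e ∈ l, E = fam 11 4 e}

/-- exact number of members -/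
def Ex (b : ℕ) (D : Finset (Finset (Fin 13))) : Prop := 2 * D.card = 114 + b

/-- **the labelled tables** -/
theorem tables_of {T : ℕ} (hT : T < 2 ^ 165) {c0 c2 c4 : List (ℕ × ℕ × List ℕ × List ℕ)}
    (h0 : TabP T 57 0 c0) (h2 : TabP T 58 0 c2) (h4 : TabP T 59 0 c4)
    (h : ∀ D : Finset (Finset (Fin 13)), OddFam 3 (below 12) D → link D 11 = fam 11 3 T →
      2 * D.card ≤ 114 + 4 → ∃ e ∈ allE c0 ++ allE c2 ++ allE c4, D = eF T e) :
    TableOK T 0 (Ex 0) (famS (allE c0)) ∧ TableOK T 2 (Ex 2) (famS (allE c2)) ∧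
      TableOK T 4 (Ex 4) (famS (allE c4)) ∧
      TableOK T 4 (fun _ => True) (famS (allE c0 ++ allE c2 ++ allE c4)) := by
  have key : ∀ D : Finset (Finset (Fin 13)), OddFam 3 (below 12) D → link D 11 = fam 11 3 T →
      2 * D.card ≤ 114 + 4 → ∃ e, (e ∈ allE c0 ∧ D.card = 57 ∨ e ∈ allE c2 ∧ D.card = 58 ∨
        e ∈ allE c4 ∧ D.card = 59) ∧ D.filter (fun s => (11 : Fin 13) ∉ s) = fam 11 4 e := by
    intro D hD hDT hc
    obtain ⟨e, he, rfl⟩ := h D hD hDT hc
    rw [List.mem_append, List.mem_append] at he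
    rcases he with (he | he) | he
    · obtain ⟨z, hz⟩ := tab_mem hT (by norm_num) h0 e he
      exact ⟨e, Or.inl ⟨he, hz.2.2.2.1⟩, filter_eF hT hz⟩
    · obtain ⟨z, hz⟩ := tab_mem hT (by norm_num) h2 e he
      exact ⟨e, Or.inr (Or.inl ⟨he, hz.2.2.2.1⟩), filter_eF hT hz⟩
    · obtain ⟨z, hz⟩ := tab_mem hT (by norm_num) h4 e he
      exact ⟨e, Or.inr (Or.inr ⟨he, hz.2.2.2.1⟩), filter_eF hT hz⟩
  refine ⟨?_, ?_, ?_, ?_⟩
  · intro D hD hDT hc hx
    have hx' : 2 * D.card = 114 + 0 := hx
    obtain ⟨e, he, hf⟩ := key D hD hDT (by omega)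
    rcases he with he | he | he
    · exact ⟨e, he.1, hf⟩
    · omega
    · omega
  · intro D hD hDT hc hx
    have hx' : 2 * D.card = 114 + 2 := hx
    obtain ⟨e, he, hf⟩ := key D hD hDT (by omega)
    rcases he with he | he | he
    · omega
    · exact ⟨e, he.1, hf⟩
    · omega
  · intro D hD hDT hc hx
    have hx' : 2 * D.card = 114 + 4 := hx
    obtain ⟨e, he, hf⟩ := key D hD hDT (by omega)
    rcases he with he | he | he
    · omega
    · omega
    · exact ⟨e, he.1, hf⟩
  · intro D hD hDT hc _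
    obtain ⟨e, he, hf⟩ := key D hD hDT hc
    refine ⟨e, ?_, hf⟩
    rw [List.mem_append, List.mem_append]
    tauto

end Pool.Agent.Helper25.TY
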