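import Pool.Agent.Helper67.TY.Sols
import Pool.Agent.Helper16.TY.Seg
import Pool.Agent.Helper33.TY.PosChk

/-!
MP_8ee768_co, project TH-Y', stage S: completeness of a labelled table by counting.

The families with pair link `T` and a zero pair `p` (and no zero pair of an earlier orbit) are at
most as many as those with the representative of the orbit of `p` as a zero pair, because an
automorphism of `T` moves `p` to it. So a list of different members which has as many entries
for every pair `p` is complete.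
-/

set_option autoImplicit false

namespace Pool.Agent.Helper25.TY

open Finset
open Pool.Agent.Helper89.CV (OddCover ofMask)
open Pool.Agent.Helper97.CV
open Pool.Agent.Helper79.CV
open Pool.Agent.Helper33.CV (pmM valL relab okPerm permOf valL_permOf permOf_apply keeps_permOf
  Keeps ofMask_pmM enc_mapF_relab fam_relab)
open Pool.Agent.Helper82.TY (below)
open Pool.Agent.Helper67.TY
open Pool.Agent.Helper16.TY (below_mapS card_link_mapF)

theorem ZD_mapF (σ : Equiv.Perm (Fin 13)) (D : Finset (Finset (Fin 13))) (m : ℕ) :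
    ZD (mapF σ D) (pmM (valL σ) m) ↔ ZD D m := by
  unfold ZD
  rw [ofMask_pmM]
  constructor
  · intro h a ha
    have h1 := h (σ a) (mem_mapS.2 ha)
    rwa [card_link_mapF] at h1
  · intro h a ha
    rw [mem_mapS'] at ha
    have h1 := h _ ha
    rw [← card_link_mapF σ, Equiv.apply_symm_apply] at h1
    exact h1

/-- the permutation of an automorphism -/
theorem exists_aut {T : ℕ} {g : List ℕ} (hg : gOK T g = true) :
    ∃ σ : Equiv.Perm (Fin 13), valL σ = g ∧ σ 12 = 12 ∧ σ 11 = 11 ∧
      mapF σ (fam 11 3 T) = fam 11 3 T := by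
  unfold gOK at hg
  rw [Bool.and_eq_true, Bool.and_eq_true, Bool.and_eq_true, Bool.and_eq_true] at hg
  obtain ⟨⟨⟨⟨hok, h11⟩, hg11⟩, hg12⟩, hrel⟩ := hg
  have hfix : ∀ i : Fin 13, g.getD i.val 0 = i.val → permOf g hok i = i := by
    intro i hi
    have h2 := permOf_apply hok i
    rw [List.getD_eq_getElem?_getD, h2, Option.getD_some] at hi
    exact Fin.ext hi
  have hkeep : Keeps 11 (permOf g hok) := keeps_permOf hok h11
  refine ⟨permOf g hok, valL_permOf _, hfix 12 (beq_true hg12), hfix 11 (beq_true hg11), ?_⟩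
  have h3 := fam_relab (n := 11) (k := 3) (by norm_num) hkeep T
  rw [valL_permOf, beq_true hrel] at h3
  exact h3.symm

/-- every mask of the list is an image of a mask of the list -/
def surjOK (G : List (List ℕ)) (forb : List ℕ) : Bool :=
  G.all fun g => forb.all fun q => forb.any fun q' => Nat.beq (pmM g q') q

/-- transport of the members of a run -/
theorem inRun_map {T cap m p : ℕ} {forb : List ℕ} {G : List (List ℕ)}
    (hs : surjOK G forb = true) {σ : Equiv.Perm (Fin 13)} (hσG : valL σ ∈ G) (h12 : σ 12 = 12)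
    (h11 : σ 11 = 11) (hT : mapF σ (fam 11 3 T) = fam 11 3 T) (hpm : pmM (valL σ) p = m)
    {D : Finset (Finset (Fin 13))} (hD : InRun T p forb cap D) :
    InRun T m forb cap (mapF σ D) := by
  obtain ⟨h1, h2, h3, h4, h5⟩ := hD
  refine ⟨?_, ?_, ?_, ?_, ?_⟩
  · have h6 := h1.map σ
    rw [below_mapS h12] at h6
    exact h6
  · have h6 := link_mapF σ D 11
    rw [h11, h2, hT] at h6
    exact h6
  · rw [card_mapF]
    exact h3
  · rw [← hpm]
    exact (ZD_mapF σ D p).2 h4
  · intro q hq hz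
    unfold surjOK at hs
    rw [List.all_eq_true] at hs
    have h6 := hs _ hσG
    rw [List.all_eq_true] at h6
    have h7 := h6 q hq
    rw [List.any_eq_true] at h7
    obtain ⟨q', hq', h8⟩ := h7
    rw [← beq_true h8] at hz
    exact h5 q' hq' ((ZD_mapF σ D q').1 hz)

theorem lt_split {T : ℕ} (hT : T < 2 ^ (11).choose 3) {e : ℕ} (he : e < 2 ^ (11).choose 4) :
    e + 2 ^ (11).choose 4 * T < 2 ^ (12).choose 4 := by
  have e1 : (12).choose 4 = (11).choose 4 + (11).choose 3 := by decide
  rw [e1, pow_add]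
  calc e + 2 ^ (11).choose 4 * T < 2 ^ (11).choose 4 + 2 ^ (11).choose 4 * T := by omega
    _ = 2 ^ (11).choose 4 * (T + 1) := by ring
    _ ≤ 2 ^ (11).choose 4 * 2 ^ (11).choose 3 := Nat.mul_le_mul_left _ hT

/-- **a run has at most as many members as its representative run** -/
theorem countRun_map {T cap K m p : ℕ} (hTlt : T < 2 ^ (11).choose 3) {forb : List ℕ}
    {G : List (List ℕ)} (hG : G.all (gOK T) = true) (hs : surjOK G forb = true) {g : List ℕ}
    (hg : g ∈ G) (hpm : pmM g p = m) (hK : CountRun T m forb cap K) :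
    CountRun T p forb cap K := by
  classical
  intro F hF
  rw [List.all_eq_true] at hG
  obtain ⟨σ, hval, h12, h11, hT⟩ := exists_aut (hG g hg)
  have key : ∀ e ∈ F, InRun T m forb cap (mapF σ (fam 12 4 (e + 2 ^ (11).choose 4 * T))) ∧
      fam 12 4 (enc 11 4 (mapF σ (fam 12 4 (e + 2 ^ (11).choose 4 * T))) +
        2 ^ (11).choose 4 * T) = mapF σ (fam 12 4 (e + 2 ^ (11).choose 4 * T)) := by
    intro e he
    have h1 := inRun_map (m := m) hs (by rw [hval]; exact hg) h12 h11 hT
      (by rw [hval]; exact hpm) (hF e he).2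
    refine ⟨h1, ?_⟩
    rw [← enc_of_inRun hTlt h1, fam_enc (by norm_num) (sub_twelve h1.1)]
  have hinj : Set.InjOn (fun e => enc 11 4 (mapF σ (fam 12 4 (e + 2 ^ (11).choose 4 * T))))
      (F : Set ℕ) := by
    intro e he e' he' h
    have h' : enc 11 4 (mapF σ (fam 12 4 (e + 2 ^ (11).choose 4 * T))) =
      enc 11 4 (mapF σ (fam 12 4 (e' + 2 ^ (11).choose 4 * T))) := h
    have h1 := (key e he).2
    rw [h', (key e' he').2] at h1
    have h2 := congrArg (mapF σ.symm) h1
    rw [mapF_symm_mapF, mapF_symm_mapF] at h2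
    have h3 := congrArg (enc 12 4) h2
    rw [enc_fam (by norm_num) (lt_split hTlt (hF e' he').1),
      enc_fam (by norm_num) (lt_split hTlt (hF e he).1)] at h3
    omega
  have key2 : ∀ x ∈ F.image (fun e => enc 11 4 (mapF σ (fam 12 4 (e + 2 ^ (11).choose 4 * T)))),
      x < 2 ^ (11).choose 4 ∧ InRun T m forb cap (fam 12 4 (x + 2 ^ (11).choose 4 * T)) := by
    intro x hx
    rw [mem_image] at hx
    obtain ⟨e, he, hx⟩ := hx
    have h1 := key e he
    rw [hx] at h1
    have h2 := enc_lt 11 4 (mapF σ (fam 12 4 (e + 2 ^ (11).choose 4 * T)))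
    rw [hx] at h2
    refine ⟨h2, ?_⟩
    rw [h1.2]
    exact h1.1
  have h3 := hK _ key2
  rw [card_image_of_injOn hinj] at h3
  exact h3

/-- some orbit has a zero pair, and the earlier ones have none -/
theorem exists_zero_pair {cap : ℕ} {runs : List (ℕ × List (ℕ × ℕ))}
    (hC : coverOK runs (11 - cap) = true)
    (hlt : ∀ r ∈ runs, ∀ p ∈ r.2, p.1 < 2048)
    {D : Finset (Finset (Fin 13))} (hD : OddFam 3 (below 12) D) (hc : 2 * D.card ≤ 114 + cap) :
    ∃ r, ∃ h : r < runs.length, ∃ p ∈ (runs[r]).2, ZD D p.1 ∧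
      ∀ q ∈ prevs runs r, ¬ ZD D q := by
  classical
  have hD' := hD
  rw [below_twelve] at hD'
  obtain ⟨B, hB, hBD⟩ := exists_cover hD'
  have hM : MM B 12 ≤ cap := by
    have h1 := two_mul_card_link hB 12
    rw [hBD] at h1
    omega
  have hz := zeros_card B 12
  obtain ⟨m, hm, hmc, hmz⟩ : ∃ m, m < 2048 ∧ 11 - cap ≤ cardM m ∧ ZM B m := by
    refine ⟨mk ((zeros B 12).erase 11), ?_, ?_, ?_⟩
    · refine lt_of_lt_of_eq ((mk_lt_iff (n := 11)).2 fun a ha => ?_) (by norm_num)
      rw [mem_erase, mem_zeros] at ha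
      have h1 : a ≠ 12 := fun h => ha.2.1 h.symm
      have h2 : a.val ≠ 11 := fun h => ha.1 (Fin.ext h)
      have h3 : a.val ≠ 12 := fun h => h1 (Fin.ext h)
      omega
    · rw [← card_ofMask, ofMask_mk]
      have h1 := pred_card_le_card_erase (s := zeros B 12) (a := (11 : Fin 13))
      omega
    · intro a ha
      rw [ofMask_mk, mem_erase, mem_zeros] at ha
      exact ha.2.2
  have hex : ∃ r, ∃ h : r < runs.length, ∃ p ∈ (runs[r]).2, ZM B p.1 := by
    unfold coverOK at hC
    rw [List.all_eq_true] at hC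
    have h1 := hC m (List.mem_range.2 hm)
    rw [Bool.or_eq_true] at h1
    rcases h1 with h1 | h1
    · have := blt_true h1
      omega
    · rw [List.any_eq_true] at h1
      obtain ⟨r, hr, h2⟩ := h1
      rw [List.any_eq_true] at h2
      obtain ⟨p, hp, h3⟩ := h2
      obtain ⟨i, hi, rfl⟩ := List.getElem_of_mem hr
      refine ⟨i, hi, p, hp, ?_⟩
      intro a ha
      refine hmz a ?_
      have h4 : ofMask p.1 ∩ ofMask m = ofMask p.1 := by
        rw [← ofMask_land]
        exact congrArg ofMask (beq_true h3)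
      rw [← h4, mem_inter] at ha
      exact ha.2
  obtain ⟨r, ⟨hr, p, hp, hpz⟩, hmin⟩ :
      ∃ r, (∃ h : r < runs.length, ∃ p ∈ (runs[r]).2, ZM B p.1) ∧
        ∀ s < r, ¬ ∃ h : s < runs.length, ∃ p ∈ (runs[s]).2, ZM B p.1 :=
    ⟨Nat.find hex, Nat.find_spec hex, fun s hs => Nat.find_min hex hs⟩
  refine ⟨r, hr, p, hp, ?_, ?_⟩
  · rw [← hBD]
    exact (zm_iff_zd hB (hlt _ (List.getElem_mem hr) p hp)).1 hpz
  · intro q hq hqz
    obtain ⟨s, hs, hsr, p', hp', rfl⟩ := mem_prevs hq
    refine hmin s hsr ⟨hs, p', hp', ?_⟩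
    rw [zm_iff_zd hB (hlt _ (List.getElem_mem hs) p' hp'), hBD]
    exact hqz

/-- **completeness by counting** -/
theorem table_of_counts {T cap : ℕ} (hTlt : T < 2 ^ (11).choose 3) {G : List (List ℕ)}
    {runs : List (ℕ × List (ℕ × ℕ))} (hG : G.all (gOK T) = true)
    (hR : runs.all (runOK G) = true) (hC : coverOK runs (11 - cap) = true)
    (hS : ∀ r < runs.length, surjOK G (prevs runs r) = true) {K : ℕ → ℕ}
    (hK : ∀ r, ∀ h : r < runs.length, CountRun T (runs[r]).1 (prevs runs r) cap (K r))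
    {P : Finset (Finset (Fin 13)) → Prop}
    (hF : ∀ r, ∀ h : r < runs.length, ∀ p ∈ (runs[r]).2, ∃ F : Finset ℕ, K r ≤ F.card ∧
      ∀ e ∈ F, e < 2 ^ (11).choose 4 ∧
        InRun T p.1 (prevs runs r) cap (fam 12 4 (e + 2 ^ (11).choose 4 * T)) ∧
        P (fam 12 4 (e + 2 ^ (11).choose 4 * T)))
    {D : Finset (Finset (Fin 13))} (hD : OddFam 3 (below 12) D) (hDT : link D 11 = fam 11 3 T)
    (hc : 2 * D.card ≤ 114 + cap) : P D := by
  rw [List.all_eq_true] at hR
  have hrun : ∀ r ∈ runs, ∀ p ∈ r.2, p.1 < 2048 ∧ pmM (G.getD p.2 []) p.1 = r.1 ∧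
      p.2 < G.length := by
    intro r hr p hp
    have h1 := hR _ hr
    unfold runOK at h1
    rw [Bool.and_eq_true, List.all_eq_true] at h1
    have h2 := h1.1 p hp
    rw [Bool.and_eq_true, Bool.and_eq_true] at h2
    exact ⟨blt_true h2.1.1, beq_true h2.1.2, blt_true h2.2⟩
  obtain ⟨r, hr, p, hp, h1, h2⟩ := exists_zero_pair hC (fun r hr p hp => (hrun r hr p hp).1)
    hD hc
  obtain ⟨h3, h4, h5⟩ := hrun _ (List.getElem_mem hr) p hp
  rw [List.getD_eq_getElem _ _ h5] at h4
  obtain ⟨F, h6, h7⟩ := hF r hr p hp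
  exact run_of_count hTlt (countRun_map hTlt hG (hS r hr) (List.getElem_mem h5) h4 (hK r hr))
    h6 h7 ⟨hD, hDT, hc, h1, h2⟩

end Pool.Agent.Helper25.TY
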