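import Pool.Agent.Helper33.TY.SPair

/-!
MP_8ee768_co, project TH-Y', stage S: context of the stages (0,2), (0,4), (2,2), (2,4) and the
final step of a pair.

`pair_sum`: row sums over the eleven points below 11. `Lam_ge`: lower bound of the excess of a
pair of points from the quads meeting `{12, 11}` and the common quads of the two links.
`pdead_final`: a pair is dead if the points `Z` cannot have `MM = 6` and the row sums give more
than 88. `stS_of_pdead`: the stages from the dead pairs. Without row sums the final step needs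
`88 < a + b + 66 + 2 * (number of points checked or of positive excess to 12 or 11)`: all eleven
points for (0,2), all but one for (0,4) and (2,2), all but two for (2,4).
-/

set_option autoImplicit false

namespace Pool.Agent.Helper25.TY

open Finset
open Pool.Agent.Helper89.CV (OddCover ofMask)
open Pool.Agent.Helper97.CV Pool.Agent.Helper79.CV
open Pool.Agent.Helper82.TY (below Best)
open Pool.Agent.Helper4.CV Pool.Agent.Helper33.TY

/-- the eleven points outside the pair -/
def R11 : Finset (Fin 13) := univ.filter fun u => u.val < 11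

theorem mem_R11 {u : Fin 13} : u ∈ R11 ↔ u.val < 11 := by
  unfold R11
  rw [mem_filter]
  exact ⟨fun h => h.2, fun h => ⟨mem_univ _, h⟩⟩

theorem univ_eq_R11 : (univ : Finset (Fin 13)) = insert 12 (insert 11 R11) := by
  decide

theorem sum_R11 (f : Fin 13 → ℕ) : ∑ z, f z = f 12 + (f 11 + ∑ z ∈ R11, f z) := by
  rw [univ_eq_R11, sum_insert (by decide), sum_insert (by decide)]

theorem compl_eq_R11 {u : Fin 13} (hu : u.val < 11) :
    (({u} : Finset (Fin 13))ᶜ) = insert 12 (insert 11 (R11.erase u)) := by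
  have h : ∀ u : Fin 13, u.val < 11 →
      (({u} : Finset (Fin 13))ᶜ) = insert 12 (insert 11 (R11.erase u)) := by decide
  exact h u hu

/-- the smallest even number which is at least `n` -/
def ev (n : ℕ) : ℕ := 2 * ((n + 1) / 2)

theorem ev_le {n m : ℕ} (h : n ≤ m) (hm : Even m) : ev n ≤ m := by
  obtain ⟨k, rfl⟩ := hm
  unfold ev
  omega

/-- lower bound of `MM B u`: `A u` for the pair, `P u v` for the other points -/
def row (A : Fin 13 → ℕ) (P : Fin 13 → Fin 13 → ℕ) (u : Fin 13) : ℕ :=
  ev (A u + ∑ v ∈ R11.erase u, (P u v + 1) / 3)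

/-- bounds known for a pair -/
structure Bnd (B : Finset (Finset (Fin 13))) (A : Fin 13 → ℕ) (P : Fin 13 → Fin 13 → ℕ) :
    Prop where
  A_le : ∀ u : Fin 13, u.val < 11 → A u ≤ mm B 12 u + mm B 11 u
  P_le : ∀ u v : Fin 13, u.val < 11 → v.val < 11 → u ≠ v → P u v ≤ Lam B {u, v}

theorem row_le {B : Finset (Finset (Fin 13))} (hB : OddCover B) {A : Fin 13 → ℕ}
    {P : Fin 13 → Fin 13 → ℕ} (h : Bnd B A P) {u : Fin 13} (hu : u.val < 11) :
    row A P u ≤ MM B u := by
  refine ev_le ?_ (MM_even hB u)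
  have h1 : MM B u = mm B 12 u + (mm B 11 u + ∑ v ∈ R11.erase u, mm B u v) := by
    unfold MM
    rw [compl_eq_R11 hu, sum_insert (by
      rw [mem_insert, mem_erase, mem_R11]
      rintro (h | h)
      · exact absurd h (by decide)
      · exact absurd h.2 (by decide)), sum_insert (by
      rw [mem_erase, mem_R11]
      exact fun h => absurd h.2 (by decide)), mm_comm B u 12, mm_comm B u 11]
  have h2 : ∑ v ∈ R11.erase u, (P u v + 1) / 3 ≤ ∑ v ∈ R11.erase u, mm B u v := by
    refine sum_le_sum fun v hv => ?_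
    rw [mem_erase, mem_R11] at hv
    have h3 := h.P_le u v hu hv.2 hv.1.symm
    have h4 := Lam_pair hB hv.1.symm
    omega
  have h3 := h.A_le u hu
  omega

/-- the row sums of a pair -/
theorem pair_sum {B : Finset (Finset (Fin 13))} (hB : OddCover B) {A : Fin 13 → ℕ}
    {P : Fin 13 → Fin 13 → ℕ} (h : Bnd B A P) {l : Fin 13 → ℕ}
    (hl : ∀ u : Fin 13, u.val < 11 → l u ≤ MM B u) :
    MM B 12 + MM B 11 + ∑ u ∈ R11, max (l u) (row A P u) ≤ ∑ z, MM B z := by
  rw [sum_R11, ← add_assoc]
  refine Nat.add_le_add_left ?_ _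
  exact sum_le_sum fun u hu => max_le (hl u (mem_R11.1 hu)) (row_le hB h (mem_R11.1 hu))

/-- excess of the quads through `u, v`: the quads meeting the pair, and the common quads of the
two links -/
theorem Lam_ge {B : Finset (Finset (Fin 13))} {u v : Fin 13} {p q : ℕ}
    (hp : p ≤ ∑ s ∈ quads.filter (fun s => {u, v} ⊆ s ∧ (12 ∈ s ∨ 11 ∈ s)), ex B s)
    (hq : q ≤ ((link B 12 ∩ link B 11).filter (fun s => {u, v} ⊆ s ∧ s.card = 4)).card) :
    p + q ≤ Lam B {u, v} := by
  have h1 : Lam B {u, v} =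
      ∑ s ∈ quads.filter (fun s => {u, v} ⊆ s ∧ (12 ∈ s ∨ 11 ∈ s)), ex B s +
      ∑ s ∈ quads.filter (fun s => {u, v} ⊆ s ∧ ¬ (12 ∈ s ∨ 11 ∈ s)), ex B s := by
    unfold Lam LamW
    rw [← sum_filter_add_sum_filter_not (quads.filter (fun s => {u, v} ⊆ s))
      (fun s => 12 ∈ s ∨ 11 ∈ s), filter_filter, filter_filter]
  have h2 : ((link B 12 ∩ link B 11).filter (fun s => {u, v} ⊆ s ∧ s.card = 4)).card ≤
      ∑ s ∈ quads.filter (fun s => {u, v} ⊆ s ∧ ¬ (12 ∈ s ∨ 11 ∈ s)), ex B s := by
    rw [card_eq_sum_ones]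
    have hsub : (link B 12 ∩ link B 11).filter (fun s => {u, v} ⊆ s ∧ s.card = 4) ⊆
        quads.filter (fun s => {u, v} ⊆ s ∧ ¬ (12 ∈ s ∨ 11 ∈ s)) := by
      intro s hs
      rw [mem_filter, mem_inter, mem_link, mem_link] at hs
      rw [mem_filter, mem_quads]
      refine ⟨hs.2.2, hs.2.1, ?_⟩
      rintro (h | h)
      · exact hs.1.1.1 h
      · exact hs.1.2.1 h
    refine le_trans (sum_le_sum fun s hs => ?_) (sum_le_sum_of_subset hsub)
    rw [mem_filter, mem_inter] at hs
    have hK : Disjoint ({12, 11} : Finset (Fin 13)) s := by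
      rw [disjoint_left]
      intro a ha has
      rw [mem_insert, mem_singleton] at ha
      rcases ha with rfl | rfl
      · exact (mem_link.1 hs.1.1).1 has
      · exact (mem_link.1 hs.1.2).1 has
    refine le_trans (le_of_eq ?_) (ex_ge_of_links hK)
    have h3 : ({12, 11} : Finset (Fin 13)).filter (fun x => s ∈ link B x) = {12, 11} := by
      rw [filter_true_of_mem]
      intro x hx
      rw [mem_insert, mem_singleton] at hx
      rcases hx with rfl | rfl
      · exact hs.1.1
      · exact hs.1.2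
    rw [h3]
    decide
  omega

/-! ## the final step of a pair -/

/-- lower bound of `MM`: 8 for the checked points and the points of positive excess to the pair -/
def lS (Z : Finset (Fin 13)) (A : Fin 13 → ℕ) (u : Fin 13) : ℕ :=
  if u ∈ Z ∨ 1 ≤ A u then 8 else 6

theorem lS_le {B : Finset (Finset (Fin 13))} {a b : ℕ} (h : TwoS B 12 11 a b) (ha : a ≤ 6)
    (hb : b ≤ 6) {Z : Finset (Fin 13)} (hZ : ∀ z ∈ Z, MM B z ≠ 6) {A : Fin 13 → ℕ}
    {P : Fin 13 → Fin 13 → ℕ} (hAP : Bnd B A P) {u : Fin 13} (hu : u.val < 11) :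
    lS Z A u ≤ MM B u := by
  have h12 : u ≠ 12 := by
    rintro rfl
    exact absurd hu (by decide)
  have h11 : u ≠ 11 := by
    rintro rfl
    exact absurd hu (by decide)
  have h6 := h.other u h12 h11
  have hev := MM_even h.best.odd u
  unfold lS
  split_ifs with hc
  · have h7 : MM B u ≠ 6 := by
      rcases hc with hc | hc
      · exact hZ u hc
      · intro h8
        have h9 := hAP.A_le u hu
        have e1 := h.ind 12 u h12.symm (h.hx.le.trans ha) h8.le
        have e2 := h.ind 11 u h11.symm (h.hy.le.trans hb) h8.le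
        omega
    obtain ⟨k, hk⟩ := hev
    omega
  · exact h6

/-- the point `z` cannot have `MM = 6` -/
def ZDead (Q : Finset (Finset (Fin 13)) → Fin 13 → Fin 13 → Prop) (r : ℕ)
    (u : Finset (Finset (Fin 13))) (z : Fin 13) : Prop :=
  ∀ B : Finset (Finset (Fin 13)), Q B 12 11 → link B 12 = fam 12 4 r → lane B 11 = u →
    MM B z = 6 → False

/-- **the final step of a pair** -/
theorem pdead_final {a b : ℕ} (ha : a ≤ 6) (hb : b ≤ 6) {r : ℕ}
    {u : Finset (Finset (Fin 13))} {Z : Finset (Fin 13)}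
    (hZ : ∀ z ∈ Z, ZDead (fun B x y => TwoS B x y a b) r u z) {A : Fin 13 → ℕ}
    {P : Fin 13 → Fin 13 → ℕ}
    (hAP : ∀ B : Finset (Finset (Fin 13)), OddCover B → link B 12 = fam 12 4 r →
      lane B 11 = u → Bnd B A P)
    (hs : 88 < a + b + ∑ v ∈ R11, max (lS Z A v) (row A P v)) :
    PDead (fun B x y => TwoS B x y a b) r u := by
  intro B h hl hu
  have h' : TwoS B 12 11 a b := h
  have hB := h'.best.odd
  have h1 := hAP B hB hl hu
  have h2 := pair_sum hB h1 (l := lS Z A) fun v hv =>
    lS_le h' ha hb (fun z hz h6 => hZ z hz B h hl hu h6) h1 hv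
  rw [h'.sum, h'.hx, h'.hy] at h2
  omega

/-- the same without row sums: enough points are checked -/
theorem pdead_card {a b : ℕ} (ha : a ≤ 6) (hb : b ≤ 6) {r : ℕ}
    {u : Finset (Finset (Fin 13))} {Z : Finset (Fin 13)} (hZR : Z ⊆ R11)
    (hZ : ∀ z ∈ Z, ZDead (fun B x y => TwoS B x y a b) r u z)
    (hs : 22 < a + b + 2 * Z.card) :
    PDead (fun B x y => TwoS B x y a b) r u := by
  refine pdead_final (A := fun _ => 0) (P := fun _ _ => 0) ha hb hZ
    (fun B _ _ _ => ⟨fun _ _ => Nat.zero_le _, fun _ _ _ _ _ => Nat.zero_le _⟩) ?_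
  have h1 : ∑ v ∈ R11, max (lS Z (fun _ => 0) v) (row (fun _ => 0) (fun _ _ => 0) v) =
      ∑ v ∈ R11, (6 + if v ∈ Z then 2 else 0) := by
    refine sum_congr rfl fun v _ => ?_
    have h2 : row (fun _ => 0) (fun _ _ => 0) v = 0 := by
      unfold row ev
      simp
    rw [h2, Nat.max_zero]
    unfold lS
    by_cases hv : v ∈ Z
    · rw [if_pos (Or.inl hv), if_pos hv]
    · rw [if_neg hv, if_neg]
      rintro (h | h)
      · exact hv h
      · exact Nat.not_succ_le_zero 0 h
  rw [h1, sum_add_distrib, sum_const, ← sum_filter, sum_const, smul_eq_mul, smul_eq_mul,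
    filter_mem_eq_inter, inter_eq_right.2 hZR]
  have h3 : R11.card = 11 := by decide
  rw [h3]
  omega

/-! ## the stages -/

/-- what the stages S need: roots, positions, tables and dead pairs for `(a, b)` -/
structure SData (a b : ℕ) where
  reps : List ℕ
  root : RootOK a Red reps
  pos : List (ℕ × ℕ)
  posOK : ∀ r ∈ reps, PosOK r pos
  S : ℕ → Set (Finset (Finset (Fin 13)))
  table : ∀ rT ∈ pos, TableOK rT.2 b (fun _ => True) (S rT.2)
  dead : ∀ rT ∈ pos, ∀ E ∈ S rT.2, PDead (fun B x y => TwoS B x y a b) rT.1 (cone 11 E)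

theorem SData.false {a b : ℕ} (d : SData a b) (hab : a ≤ b) (ha : a ≤ 2) (hb : b ≤ 4)
    {B : Finset (Finset (Fin 13))} {x y : Fin 13} (h : TwoS B x y a b) : False :=
  twoS_false hab ha hb d.root d.posOK d.table d.dead h

theorem st00_of (d : SData 0 0) : St00 := fun _ _ _ h =>
  d.false (by norm_num) (by norm_num) (by norm_num) h

theorem st02_of (d : SData 0 2) : St02 := fun _ _ _ h _ _ =>
  d.false (by norm_num) (by norm_num) (by norm_num) h

theorem st04_of (d : SData 0 4) : St04 := fun _ _ _ h _ _ _ _ _ =>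
  d.false (by norm_num) (by norm_num) (by norm_num) h

theorem st22_of (d : SData 2 2) : St22 := fun _ _ _ h _ _ _ _ _ =>
  d.false (by norm_num) (by norm_num) (by norm_num) h

theorem st24_of (d : SData 2 4) : St24 := fun _ _ _ h _ _ _ _ _ _ _ _ _ _ _ =>
  d.false (by norm_num) (by norm_num) (by norm_num) h

end Pool.Agent.Helper25.TY
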