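import Pool.Agent.Helper25.TY.SUnit
import Pool.Agent.Helper14.TYS.UOk

/-!
MP_8ee768_co, project TH-Y', stage S: from the collecting theorems of the modules to the dead pairs.
-/

set_option autoImplicit false

namespace Pool.Agent.Helper25.TY

open Pool.Agent.Helper33.TY (unitA unitB rwA rwB rwA0 rwB0)
open Pool.Agent.Helper14.TYS (UOk)

/-- a collecting theorem with all the roots of the first pair link -/
theorem mA (hg : GOK) {b : ℕ} {E : List ℕ} {k n : ℕ} (h : UOk (unitA b) rwA ((E.drop k).take n))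
    (hb : Nat.ble b 4 = true) : Rect b rwA E 0 99 k n :=
  fun p hp => h.deadA hg tie_gC (Nat.le_of_ble_eq_true hb) (fun _ hp => hp) p (mem_dt hp)

/-- a collecting theorem with all the roots of the second pair link -/
theorem mB (hg : GOK) {b : ℕ} {E : List ℕ} {k n : ℕ} (h : UOk (unitB b) rwB ((E.drop k).take n))
    (hb : Nat.ble b 4 = true) : Rect b rwB E 0 99 k n :=
  fun p hp => h.deadB hg tie_gC (Nat.le_of_ble_eq_true hb) (fun _ hp => hp) p (mem_dt hp)

/-- a collecting theorem with the first `j` roots -/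
theorem m0A (hg : GOK) {b j : ℕ} {E : List ℕ} {k n : ℕ}
    (h : UOk (unitA b) (rwA0.take j) ((E.drop k).take n))
    (hb : Nat.ble b 4 = true) : Rect b (rwA0.take j) E 0 99 k n :=
  fun p hp => h.deadA hg tie_gC (Nat.le_of_ble_eq_true hb) mem_rwA0 p (mem_dt hp)

theorem m0B (hg : GOK) {b j : ℕ} {E : List ℕ} {k n : ℕ}
    (h : UOk (unitB b) (rwB0.take j) ((E.drop k).take n))
    (hb : Nat.ble b 4 = true) : Rect b (rwB0.take j) E 0 99 k n :=
  fun p hp => h.deadB hg tie_gC (Nat.le_of_ble_eq_true hb) mem_rwB0 p (mem_dt hp)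

/-- a collecting theorem with the whole list -/
theorem wA (hg : GOK) {b : ℕ} {R : List (ℕ × ℕ × ℕ)} {E : List ℕ} (h : UOk (unitA b) R E)
    (hR : ∀ p ∈ R, p ∈ rwA) (hb : Nat.ble b 4 = true) : DeadE b (R.map prj) E := by
  intro q hq e he
  obtain ⟨p, hp, rfl⟩ := List.mem_map.1 hq
  exact h.deadA hg tie_gC (Nat.le_of_ble_eq_true hb) hR p hp e he

theorem wB (hg : GOK) {b : ℕ} {R : List (ℕ × ℕ × ℕ)} {E : List ℕ} (h : UOk (unitB b) R E)
    (hR : ∀ p ∈ R, p ∈ rwB) (hb : Nat.ble b 4 = true) : DeadE b (R.map prj) E := by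
  intro q hq e he
  obtain ⟨p, hp, rfl⟩ := List.mem_map.1 hq
  exact h.deadB hg tie_gC (Nat.le_of_ble_eq_true hb) hR p hp e he

/-- the groups of the entries with `MM = 0` -/
theorem all_lt {P : ℕ → Prop} {n : ℕ} (h : ∀ j ∈ List.range n, P j) : ∀ j < n, P j :=
  fun j hj => h j (List.mem_range.2 hj)

end Pool.Agent.Helper25.TY
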