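import Pool.Agent.Helper25.TY.SCtx

/-!
MP_8ee768_co, project TH-Y', stage S: the second small point in relative form.

In a `Best` cover a 5-set `V` with at least three quads of the link of `y` contains a point `u`
with `MM u + 2 <= MM y` and `V - u` in the link of `y`. For a pair `TwoS a b` (`y = 11`,
`x = 12`) only `u = x` is possible, and only if `a + 2 <= b`.
-/

set_option autoImplicit false

namespace Pool.Agent.Helper25.TY

open Finset
open Pool.Agent.Helper89.CV (OddCover ofMask)
open Pool.Agent.Helper97.CV Pool.Agent.Helper79.CV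
open Pool.Agent.Helper82.TY (below Best)
open Pool.Agent.Helper4.CV Pool.Agent.Helper33.TY

/-- quads of the link of `11` avoiding `12` -/
theorem mem_linkY_low {B : Finset (Finset (Fin 13))} {s : Finset (Fin 13)}
    (h12 : (12 : Fin 13) ∉ s) (h11 : (11 : Fin 13) ∉ s) :
    s ∈ link B 11 ↔ insert 11 s ∈ lane B 11 := by
  rw [mem_link, mem_lane]
  refine ⟨fun h => ⟨h.2, mem_insert_self _ _, ?_⟩, fun h => ⟨h11, h.1⟩⟩
  rw [mem_insert]
  rintro (h1 | h1)
  · exact absurd h1 (by decide)
  · exact h12 h1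

/-- quads of the link of `11` through `12` -/
theorem mem_linkY_high {B : Finset (Finset (Fin 13))} {t : Finset (Fin 13)}
    (h12 : (12 : Fin 13) ∉ t) (h11 : (11 : Fin 13) ∉ t) :
    insert 12 t ∈ link B 11 ↔ insert 11 t ∈ link B 12 := by
  rw [mem_link, mem_link, insert_comm]
  have e1 : (11 : Fin 13) ∉ insert 12 t := by
    rw [mem_insert]
    rintro (h1 | h1)
    · exact absurd h1 (by decide)
    · exact h11 h1
  have e2 : (12 : Fin 13) ∉ insert 11 t := by
    rw [mem_insert]
    rintro (h1 | h1)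
    · exact absurd h1 (by decide)
    · exact h12 h1
  exact ⟨fun h => ⟨e2, h.2⟩, fun h => ⟨e1, h.2⟩⟩

theorem notMem_of_R11 {V : Finset (Fin 13)} (hV : V ⊆ R11) :
    (12 : Fin 13) ∉ V ∧ (11 : Fin 13) ∉ V :=
  ⟨fun h => absurd (mem_R11.1 (hV h)) (by decide), fun h => absurd (mem_R11.1 (hV h)) (by decide)⟩

/-- at least three quads of the link of `11` in a 5-set -/
theorem twoS_three {B : Finset (Finset (Fin 13))} {a b : ℕ} (h : TwoS B 12 11 a b) (hb : b ≤ 7)
    {V : Finset (Fin 13)} (hV : V.card = 5) (h11 : (11 : Fin 13) ∉ V)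
    (h3 : 3 ≤ (link B 11 ∩ V.powersetCard 4).card) :
    (12 : Fin 13) ∈ V ∧ V.erase 12 ∈ link B 11 ∧ a + 2 ≤ b := by
  obtain ⟨u, hu, hul, hM⟩ := h.best.p_eq_three hV h11 h3
  rw [h.hy] at hM
  have h1 : u = 12 := by
    by_contra hne
    have h2 : u ≠ 11 := fun h2 => h11 (h2 ▸ hu)
    have h4 := h.other u hne h2
    omega
  subst h1
  rw [h.hx] at hM
  exact ⟨hu, hul, hM⟩

/-- (1) five points outside the pair -/
theorem pdead_low {a b : ℕ} (hb : b ≤ 7) {r : ℕ} {u : Finset (Finset (Fin 13))}
    {V : Finset (Fin 13)} (hV : V.card = 5) (hVR : V ⊆ R11)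
    (h3 : 3 ≤ ((V.powersetCard 4).filter (fun s => insert 11 s ∈ u)).card) :
    PDead (fun B x y => TwoS B x y a b) r u := by
  intro B h hl hu
  have h' : TwoS B 12 11 a b := h
  obtain ⟨h12, h11⟩ := notMem_of_R11 hVR
  have h4 : (V.powersetCard 4).filter (fun s => insert 11 s ∈ u) ⊆
      link B 11 ∩ V.powersetCard 4 := by
    intro s hs
    rw [mem_filter, mem_powersetCard] at hs
    rw [mem_inter, mem_powersetCard]
    refine ⟨(mem_linkY_low (fun h => h12 (hs.1.1 h)) (fun h => h11 (hs.1.1 h))).2 ?_, hs.1⟩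
    rw [hu]
    exact hs.2
  exact h12 (twoS_three h' hb hV h11 (h3.trans (card_le_card h4))).1

/-- the quads of the link of `11` in `W + 12` -/
theorem card_high {B : Finset (Finset (Fin 13))} {r : ℕ} {u : Finset (Finset (Fin 13))}
    (hl : link B 12 = fam 12 4 r) (hu : lane B 11 = u) {W : Finset (Fin 13)} (hW : W.card = 4)
    (hWR : W ⊆ R11) :
    ((W.powersetCard 3).filter (fun t => insert 11 t ∈ fam 12 4 r)).card +
      (if insert 11 W ∈ u then 1 else 0) ≤
      (link B 11 ∩ (insert 12 W).powersetCard 4).card := by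
  obtain ⟨h12, h11⟩ := notMem_of_R11 hWR
  have hA : ((W.powersetCard 3).filter (fun t => insert 11 t ∈ fam 12 4 r)).image (insert 12) ⊆
      (link B 11 ∩ (insert 12 W).powersetCard 4).filter (fun s => (12 : Fin 13) ∈ s) := by
    intro s hs
    obtain ⟨t, ht, rfl⟩ := mem_image.1 hs
    rw [mem_filter, mem_powersetCard] at ht
    have e12 : (12 : Fin 13) ∉ t := fun h => h12 (ht.1.1 h)
    rw [mem_filter, mem_inter, mem_powersetCard]
    refine ⟨⟨?_, insert_subset_insert _ ht.1.1, ?_⟩, mem_insert_self _ _⟩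
    · rw [mem_linkY_high e12 (fun h => h11 (ht.1.1 h)), hl]
      exact ht.2
    · rw [card_insert_of_notMem e12, ht.1.2]
  have hAc : ((W.powersetCard 3).filter (fun t => insert 11 t ∈ fam 12 4 r)).card ≤
      ((link B 11 ∩ (insert 12 W).powersetCard 4).filter (fun s => (12 : Fin 13) ∈ s)).card := by
    rw [← card_image_of_injOn (f := insert (12 : Fin 13)) ?_]
    · exact card_le_card hA
    · intro t ht t' ht' heq
      rw [mem_coe, mem_filter, mem_powersetCard] at ht ht'
      have e1 : (insert (12 : Fin 13) t).erase 12 = (insert (12 : Fin 13) t').erase 12 := by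
        have heq' : insert (12 : Fin 13) t = insert (12 : Fin 13) t' := heq
        rw [heq']
      rw [erase_insert (fun h => h12 (ht.1.1 h)), erase_insert (fun h => h12 (ht'.1.1 h))] at e1
      exact e1
  have hB : (if insert 11 W ∈ u then 1 else 0) ≤
      ((link B 11 ∩ (insert 12 W).powersetCard 4).filter (fun s => ¬ (12 : Fin 13) ∈ s)).card := by
    split_ifs with hc
    · rw [Nat.one_le_iff_ne_zero, ← Nat.pos_iff_ne_zero, card_pos]
      refine ⟨W, ?_⟩
      rw [mem_filter, mem_inter, mem_powersetCard]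
      refine ⟨⟨(mem_linkY_low h12 h11).2 (by rw [hu]; exact hc), subset_insert _ _, hW⟩, h12⟩
    · exact Nat.zero_le _
  rw [← card_filter_add_card_filter_not (s := link B 11 ∩ (insert 12 W).powersetCard 4)
    (fun s => (12 : Fin 13) ∈ s)]
  exact Nat.add_le_add hAc hB

/-- (2) four points outside the pair and `12` -/
theorem pdead_high {a b : ℕ} (hb : b ≤ 7) {r : ℕ} {u : Finset (Finset (Fin 13))}
    {W : Finset (Fin 13)} (hW : W.card = 4) (hWR : W ⊆ R11) (hWu : insert 11 W ∉ u)
    (h3 : 3 ≤ ((W.powersetCard 3).filter (fun t => insert 11 t ∈ fam 12 4 r)).card) :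
    PDead (fun B x y => TwoS B x y a b) r u := by
  intro B h hl hu
  have h' : TwoS B 12 11 a b := h
  obtain ⟨h12, h11⟩ := notMem_of_R11 hWR
  have h4 := card_high hl hu hW hWR
  rw [if_neg hWu] at h4
  have e11 : (11 : Fin 13) ∉ insert 12 W := by
    rw [mem_insert]
    rintro (h1 | h1)
    · exact absurd h1 (by decide)
    · exact h11 h1
  have h5 := (twoS_three h' hb (by rw [card_insert_of_notMem h12, hW]) e11
    (by omega)).2.1
  rw [erase_insert h12, mem_linkY_low h12 h11, hu] at h5
  exact hWu h5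

/-- (3) the same if no point is lower than `11` -/
theorem pdead_high' {a b : ℕ} (hb : b ≤ 7) (hab : b < a + 2) {r : ℕ}
    {u : Finset (Finset (Fin 13))} {W : Finset (Fin 13)} (hW : W.card = 4) (hWR : W ⊆ R11)
    (h3 : 3 ≤ ((W.powersetCard 3).filter (fun t => insert 11 t ∈ fam 12 4 r)).card +
      (if insert 11 W ∈ u then 1 else 0)) :
    PDead (fun B x y => TwoS B x y a b) r u := by
  intro B h hl hu
  have h' : TwoS B 12 11 a b := h
  obtain ⟨h12, h11⟩ := notMem_of_R11 hWR
  have h4 := card_high hl hu hW hWR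
  have e11 : (11 : Fin 13) ∉ insert 12 W := by
    rw [mem_insert]
    rintro (h1 | h1)
    · exact absurd h1 (by decide)
    · exact h11 h1
  have h5 := (twoS_three h' hb (by rw [card_insert_of_notMem h12, hW]) e11
    (by omega)).2.2
  omega

end Pool.Agent.Helper25.TY
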