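import Pool.Agent.Helper25.TY.SAgg
import Pool.Agent.Helper33.TY.SMain
import Pool.Agent.Helper59.GC.Tie

/-!
MP_8ee768_co, project TH-Y', stage S: from the units (rectangles roots x entries) to the dead pairs.
-/

set_option autoImplicit false

namespace Pool.Agent.Helper25.TY

open Finset
open Pool.Agent.Helper89.CV (OddCover ofMask)
open Pool.Agent.Helper97.CV
open Pool.Agent.Helper79.CV
open Pool.Agent.Helper33.TY (PDead unitA unitB rwA rwB rwA0 rwB0 rwA2 rwB2 map_rwA map_rwB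
  rwA0_map rwB0_map dead_unitGA dead_unitGB)
open Pool.Agent.Helper54.TY (QS)
open Pool.Agent.Helper59.TY (gath tA tB)
open Pool.Agent.Helper59.GC (gC tied_all)
open Pool.Agent.Helper67.GT (NT gG gP gN gPiece)
open Pool.Agent.Helper67.TY (GluedOK)
open Pool.Agent.Helper28.TY (rlanes)
open Pool.Agent.Gen.TY.EN (rA0 rA2 rB0 rB2 grpA grpB)

/-- the tables of the glued types are complete -/
def GOK : Prop := GluedOK NT gG (rlanes gPiece gP gN)

theorem tie_gC : ∀ t < NT, gath (tA (gC t)) (tB (gC t)) = gG t := tied_all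

/-- value and code of a root -/
def prj (p : ℕ × ℕ × ℕ) : ℕ × ℕ := (p.1, p.2.1)

/-- the pairs of the roots `i, .., i + m - 1` and the entries `k, .., k + n - 1` are dead -/
def Rect (b : ℕ) (R : List (ℕ × ℕ × ℕ)) (E : List ℕ) (i m k n : ℕ) : Prop :=
  ∀ p ∈ (R.drop i).take m, ∀ e ∈ (E.drop k).take n, PDead (QS p.1 b) p.2.1 (cone 11 (fam 11 4 e))

/-- all rectangles of the list are dead -/
def AllR (b : ℕ) (R : List (ℕ × ℕ × ℕ)) (E : List ℕ) (l : List (ℕ × ℕ × ℕ × ℕ)) : Prop :=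
  ∀ x ∈ l, Rect b R E x.1 x.2.1 x.2.2.1 x.2.2.2

theorem AllR.nil {b : ℕ} {R : List (ℕ × ℕ × ℕ)} {E : List ℕ} : AllR b R E [] :=
  fun _ hx => absurd hx List.not_mem_nil

theorem AllR.cons {b : ℕ} {R : List (ℕ × ℕ × ℕ)} {E : List ℕ} {l : List (ℕ × ℕ × ℕ × ℕ)}
    {i m k n : ℕ} (h : Rect b R E i m k n) (hl : AllR b R E l) :
    AllR b R E ((i, m, k, n) :: l) := by
  intro x hx
  rcases List.mem_cons.1 hx with rfl | hx
  · exact h
  · exact hl x hx

theorem AllR.append {b : ℕ} {R : List (ℕ × ℕ × ℕ)} {E : List ℕ} {l l' : List (ℕ × ℕ × ℕ × ℕ)}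
    (h : AllR b R E l) (h' : AllR b R E l') : AllR b R E (l ++ l') := by
  intro x hx
  rcases List.mem_append.1 hx with hx | hx
  · exact h x hx
  · exact h' x hx

/-! ## tilings -/

/-- the rectangles of the list fill the band `k, .., k + n - 1` from the root `i` on, then the
following bands: the roots are `0, .., LR - 1`, the entries `0, .., LE - 1`; in the state
`n = 0` the next rectangle opens a band -/
def tile (LR LE : ℕ) : List (ℕ × ℕ × ℕ × ℕ) → ℕ → ℕ → ℕ → Bool
  | [], k, n, _ => Nat.beq n 0 && Nat.ble LE k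
  | x :: l, k, n, i =>
    bif Nat.beq n 0 then
      Nat.ble x.1 0 && Nat.ble x.2.2.1 k && Nat.ble k (x.2.2.1 + x.2.2.2) &&
        (bif Nat.ble LR x.2.1 then tile LR LE l (x.2.2.1 + x.2.2.2) 0 0
        else tile LR LE l k (x.2.2.1 + x.2.2.2 - k) x.2.1)
    else
      Nat.ble x.1 i && Nat.ble x.2.2.1 k && Nat.ble (k + n) (x.2.2.1 + x.2.2.2) &&
        (bif Nat.ble LR (x.1 + x.2.1) then tile LR LE l (k + n) 0 0
        else tile LR LE l k n (x.1 + x.2.1))

/-- dead pairs by index -/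
def DI (b : ℕ) (R : List (ℕ × ℕ × ℕ)) (E : List ℕ) (i k : ℕ) : Prop :=
  ∀ p, R[i]? = some p → ∀ e, E[k]? = some e → PDead (QS p.1 b) p.2.1 (cone 11 (fam 11 4 e))

theorem Rect.di {b : ℕ} {R : List (ℕ × ℕ × ℕ)} {E : List ℕ} {i m k n : ℕ}
    (h : Rect b R E i m k n) {i' k' : ℕ} (h1 : i ≤ i') (h2 : i' < i + m) (h3 : k ≤ k')
    (h4 : k' < k + n) : DI b R E i' k' := by
  intro p hp e he
  refine h p ?_ e ?_
  · refine List.mem_iff_getElem?.2 ⟨i' - i, ?_⟩
    rw [List.getElem?_take_of_lt (by omega), List.getElem?_drop]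
    rwa [show i + (i' - i) = i' by omega]
  · refine List.mem_iff_getElem?.2 ⟨k' - k, ?_⟩
    rw [List.getElem?_take_of_lt (by omega), List.getElem?_drop]
    rwa [show k + (k' - k) = k' by omega]

theorem tile_sound {b : ℕ} {R : List (ℕ × ℕ × ℕ)} {E : List ℕ} {LR LE : ℕ} :
    ∀ {l : List (ℕ × ℕ × ℕ × ℕ)} {k n i : ℕ}, AllR b R E l → tile LR LE l k n i = true →
      (∀ i' < LR, ∀ k' < k, DI b R E i' k') → (∀ i' < i, ∀ k', k ≤ k' → k' < k + n → DI b R E i' k') →
      ∀ i' < LR, ∀ k' < LE, DI b R E i' k'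
  | [], k, n, i, _, h, h1, _, i', hi, k', hk => by
    rw [tile, Bool.and_eq_true, Nat.ble_eq] at h
    exact h1 i' hi k' (by omega)
  | x :: l, k, n, i, hl, h, h1, h2, i', hi, k', hk => by
    have hx : Rect b R E x.1 x.2.1 x.2.2.1 x.2.2.2 := hl x List.mem_cons_self
    have hl' : AllR b R E l := fun y hy => hl y (List.mem_cons_of_mem _ hy)
    rw [tile] at h
    cases hn : Nat.beq n 0
    · rw [hn, cond_false, Bool.and_eq_true, Bool.and_eq_true, Bool.and_eq_true, Nat.ble_eq,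
        Nat.ble_eq, Nat.ble_eq] at h
      obtain ⟨⟨⟨h3, h4⟩, h5⟩, h6⟩ := h
      have h7 : ∀ i' < x.1 + x.2.1, ∀ k', k ≤ k' → k' < k + n → DI b R E i' k' := by
        intro i' hi' k' hk1 hk2
        by_cases h8 : i' < i
        · exact h2 i' h8 k' hk1 hk2
        · exact hx.di (by omega) hi' (by omega) (by omega)
      cases hc : Nat.ble LR (x.1 + x.2.1)
      · rw [hc, cond_false] at h6
        exact tile_sound hl' h6 h1 h7 i' hi k' hk
      · rw [hc, cond_true] at h6
        rw [Nat.ble_eq] at hc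
        refine tile_sound hl' h6 ?_ (fun i' hi' => absurd hi' (Nat.not_lt_zero _)) i' hi k' hk
        intro i' hi' k' hk'
        by_cases h8 : k' < k
        · exact h1 i' hi' k' h8
        · exact h7 i' (by omega) k' (by omega) hk'
    · rw [hn, cond_true, Bool.and_eq_true, Bool.and_eq_true, Bool.and_eq_true, Nat.ble_eq,
        Nat.ble_eq, Nat.ble_eq] at h
      obtain ⟨⟨⟨h3, h4⟩, h5⟩, h6⟩ := h
      have h7 : ∀ i' < x.2.1, ∀ k', k ≤ k' → k' < x.2.2.1 + x.2.2.2 → DI b R E i' k' := by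
        intro i' hi' k' hk1 hk2
        exact hx.di (by omega) (by omega) (by omega) (by omega)
      cases hc : Nat.ble LR x.2.1
      · rw [hc, cond_false] at h6
        refine tile_sound hl' h6 h1 (fun i' hi' k' hk1 hk2 => h7 i' hi' k' hk1 (by omega))
          i' hi k' hk
      · rw [hc, cond_true] at h6
        rw [Nat.ble_eq] at hc
        refine tile_sound hl' h6 ?_ (fun i' hi' => absurd hi' (Nat.not_lt_zero _)) i' hi k' hk
        intro i' hi' k' hk'
        by_cases h8 : k' < k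
        · exact h1 i' hi' k' h8
        · exact h7 i' (by omega) k' (by omega) hk'

/-- **all pairs are dead** -/
theorem AllR.full {b : ℕ} {R : List (ℕ × ℕ × ℕ)} {E : List ℕ} {l : List (ℕ × ℕ × ℕ × ℕ)}
    (h : AllR b R E l) {LR LE : ℕ} (hR : Nat.ble R.length LR = true)
    (hE : Nat.ble E.length LE = true) (ht : tile LR LE l 0 0 0 = true) :
    DeadE b (R.map prj) E := by
  rw [Nat.ble_eq] at hR hE
  have h1 := tile_sound (R := R) (E := E) h ht (fun _ _ k' hk' => absurd hk' (Nat.not_lt_zero _))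
    (fun i' hi' => absurd hi' (Nat.not_lt_zero _))
  intro q hq e he
  obtain ⟨p, hp, rfl⟩ := List.mem_map.1 hq
  obtain ⟨i, hi⟩ := List.mem_iff_getElem?.1 hp
  obtain ⟨k, hk⟩ := List.mem_iff_getElem?.1 he
  have hi' : i < R.length := by
    by_contra h2
    rw [List.getElem?_eq_none (not_lt.1 h2)] at hi
    exact absurd hi (by simp)
  have hk' : k < E.length := by
    by_contra h2
    rw [List.getElem?_eq_none (not_lt.1 h2)] at hk
    exact absurd hk (by simp)
  exact h1 i (by omega) k (by omega) p hi e hk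

/-! ## units -/

theorem mem_dt {α : Type} {R : List α} {i m : ℕ} {p : α} (h : p ∈ (R.drop i).take m) : p ∈ R :=
  List.mem_of_mem_drop (List.mem_of_mem_take h)

theorem rectA (hg : GOK) {b : ℕ} (hb : b ≤ 4) {R : List (ℕ × ℕ × ℕ)} (hR : ∀ p ∈ R, p ∈ rwA)
    {E cs : List ℕ} {i m k n : ℕ}
    (h : unitA b ((R.drop i).take m) ((E.drop k).take n) cs = true) : Rect b R E i m k n :=
  dead_unitGA hg tie_gC hb (fun p hp => hR p (mem_dt hp)) h

theorem rectB (hg : GOK) {b : ℕ} (hb : b ≤ 4) {R : List (ℕ × ℕ × ℕ)} (hR : ∀ p ∈ R, p ∈ rwB)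
    {E cs : List ℕ} {i m k n : ℕ}
    (h : unitB b ((R.drop i).take m) ((E.drop k).take n) cs = true) : Rect b R E i m k n :=
  dead_unitGB hg tie_gC hb (fun p hp => hR p (mem_dt hp)) h

theorem rectA_full (hg : GOK) {b : ℕ} (hb : b ≤ 4) {R : List (ℕ × ℕ × ℕ)}
    (hR : ∀ p ∈ R, p ∈ rwA) {E cs : List ℕ} {k n : ℕ}
    (h : unitA b R ((E.drop k).take n) cs = true) (m : ℕ) : Rect b R E 0 m k n :=
  fun p hp => dead_unitGA hg tie_gC hb hR h p (mem_dt hp)

theorem rectB_full (hg : GOK) {b : ℕ} (hb : b ≤ 4) {R : List (ℕ × ℕ × ℕ)}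
    (hR : ∀ p ∈ R, p ∈ rwB) {E cs : List ℕ} {k n : ℕ}
    (h : unitB b R ((E.drop k).take n) cs = true) (m : ℕ) : Rect b R E 0 m k n :=
  fun p hp => dead_unitGB hg tie_gC hb hR h p (mem_dt hp)

/-- all roots, a slice of the entries -/
theorem fA (hg : GOK) {b : ℕ} {E cs : List ℕ} {k n : ℕ}
    (h : unitA b rwA ((E.drop k).take n) cs = true) (hb : Nat.ble b 4 = true) :
    Rect b rwA E 0 99 k n :=
  rectA_full hg (Nat.le_of_ble_eq_true hb) (fun _ hp => hp) h 99

theorem fB (hg : GOK) {b : ℕ} {E cs : List ℕ} {k n : ℕ}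
    (h : unitB b rwB ((E.drop k).take n) cs = true) (hb : Nat.ble b 4 = true) :
    Rect b rwB E 0 99 k n :=
  rectB_full hg (Nat.le_of_ble_eq_true hb) (fun _ hp => hp) h 99

/-- a slice of the roots, a slice of the entries -/
theorem sA (hg : GOK) {b : ℕ} {E cs : List ℕ} {i m k n : ℕ}
    (h : unitA b ((rwA.drop i).take m) ((E.drop k).take n) cs = true)
    (hb : Nat.ble b 4 = true) : Rect b rwA E i m k n :=
  rectA hg (Nat.le_of_ble_eq_true hb) (fun _ hp => hp) h

theorem sB (hg : GOK) {b : ℕ} {E cs : List ℕ} {i m k n : ℕ}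
    (h : unitB b ((rwB.drop i).take m) ((E.drop k).take n) cs = true)
    (hb : Nat.ble b 4 = true) : Rect b rwB E i m k n :=
  rectB hg (Nat.le_of_ble_eq_true hb) (fun _ hp => hp) h

theorem mem_rwA0 {j : ℕ} : ∀ p ∈ rwA0.take j, p ∈ rwA :=
  fun _ hp => List.mem_append_left _ (List.mem_of_mem_take hp)

theorem mem_rwB0 {j : ℕ} : ∀ p ∈ rwB0.take j, p ∈ rwB :=
  fun _ hp => List.mem_append_left _ (List.mem_of_mem_take hp)

/-- the first `j` roots, a slice of the entries -/
theorem gA (hg : GOK) {b j : ℕ} {E cs : List ℕ} {k n : ℕ}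
    (h : unitA b (rwA0.take j) ((E.drop k).take n) cs = true) (hb : Nat.ble b 4 = true) :
    Rect b (rwA0.take j) E 0 99 k n :=
  rectA_full hg (Nat.le_of_ble_eq_true hb) mem_rwA0 h 99

theorem gB (hg : GOK) {b j : ℕ} {E cs : List ℕ} {k n : ℕ}
    (h : unitB b (rwB0.take j) ((E.drop k).take n) cs = true) (hb : Nat.ble b 4 = true) :
    Rect b (rwB0.take j) E 0 99 k n :=
  rectB_full hg (Nat.le_of_ble_eq_true hb) mem_rwB0 h 99

/-- a slice of the first `j` roots, a slice of the entries -/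
theorem hA (hg : GOK) {b j : ℕ} {E cs : List ℕ} {i m k n : ℕ}
    (h : unitA b (((rwA0.take j).drop i).take m) ((E.drop k).take n) cs = true)
    (hb : Nat.ble b 4 = true) : Rect b (rwA0.take j) E i m k n :=
  rectA hg (Nat.le_of_ble_eq_true hb) mem_rwA0 h

theorem hB (hg : GOK) {b j : ℕ} {E cs : List ℕ} {i m k n : ℕ}
    (h : unitB b (((rwB0.take j).drop i).take m) ((E.drop k).take n) cs = true)
    (hb : Nat.ble b 4 = true) : Rect b (rwB0.take j) E i m k n :=
  rectB hg (Nat.le_of_ble_eq_true hb) mem_rwB0 h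

/-! ## the dead pairs of the stages -/

theorem map_prj_A : rwA.map prj = rsA := map_rwA

theorem map_prj_B : rwB.map prj = rsB := map_rwB

theorem map_prj_A0 : rwA0.map prj = rA0.map fun r => (0, r) := by decide +kernel

theorem map_prj_B0 : rwB0.map prj = rB0.map fun r => (0, r) := by decide +kernel

/-- all the roots with an enumeration list -/
theorem fullA {b : ℕ} {E : List ℕ} {l : List (ℕ × ℕ × ℕ × ℕ)} (h : AllR b rwA E l) (LE : ℕ)
    (hE : Nat.ble E.length LE = true) (ht : tile 36 LE l 0 0 0 = true) : DeadE b rsA E := by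
  rw [← map_prj_A]
  exact h.full (by decide +kernel) hE ht

theorem fullB {b : ℕ} {E : List ℕ} {l : List (ℕ × ℕ × ℕ × ℕ)} (h : AllR b rwB E l) (LE : ℕ)
    (hE : Nat.ble E.length LE = true) (ht : tile 28 LE l 0 0 0 = true) : DeadE b rsB E := by
  rw [← map_prj_B]
  exact h.full (by decide +kernel) hE ht

/-- the roots `0, .., j` with the group `j` -/
theorem grpA_of {j : ℕ} {E : List ℕ} {l : List (ℕ × ℕ × ℕ × ℕ)}
    (h : AllR 0 (rwA0.take (j + 1)) E l) (LE : ℕ) (hE : Nat.ble E.length LE = true)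
    (ht : tile (j + 1) LE l 0 0 0 = true) : DeadE 0 ((rA0.take (j + 1)).map fun r => (0, r)) E := by
  rw [List.map_take, ← map_prj_A0, ← List.map_take]
  refine h.full ?_ hE ht
  rw [Nat.ble_eq, List.length_take]
  exact min_le_left _ _

theorem grpB_of {j : ℕ} {E : List ℕ} {l : List (ℕ × ℕ × ℕ × ℕ)}
    (h : AllR 0 (rwB0.take (j + 1)) E l) (LE : ℕ) (hE : Nat.ble E.length LE = true)
    (ht : tile (j + 1) LE l 0 0 0 = true) : DeadE 0 ((rB0.take (j + 1)).map fun r => (0, r)) E := by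
  rw [List.map_take, ← map_prj_B0, ← List.map_take]
  refine h.full ?_ hE ht
  rw [Nat.ble_eq, List.length_take]
  exact min_le_left _ _

/-! ## the entries with `MM = 2`, `4`, list by list -/

theorem DeadE.allE_nil {b : ℕ} {rs : List (ℕ × ℕ)} : DeadE b rs (allE []) :=
  fun _ _ _ he => absurd he List.not_mem_nil

theorem DeadE.allE_cons {b : ℕ} {rs : List (ℕ × ℕ)} {hi N : ℕ} {es zs : List ℕ}
    {cs : List (ℕ × ℕ × List ℕ × List ℕ)} (h : DeadE b rs es) (h' : DeadE b rs (allE cs)) :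
    DeadE b rs (allE ((hi, N, es, zs) :: cs)) := by
  have h1 : allE ((hi, N, es, zs) :: cs) = es ++ allE cs := by
    unfold allE
    rw [List.map_cons, List.flatten_cons]
  rw [h1]
  exact h.append h'

end Pool.Agent.Helper25.TY
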